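import Pool.Agent.Y682.XF.Uniq
import Pool.Agent.Y688.XD.Hecke
import Pool.Agent.Y461.XD.Apev
import Pool.Agent.Y758.XD.NZ
import Pool.Agent.Y109.XF.LF
import Pool.Agent.Y954.XF.LKD
import Pool.Agent.Y682.XF.Trd
import Pool.Agent.Y812.XF.HtKd
import Pool.Agent.Y44.XF.Prim
import Pool.Agent.Y44.XF.Mind
import Pool.Agent.Y641.XF.Tam
import Pool.Agent.Y813.XF.TamD
import Pool.Agent.Y665.XF.Tord
import Pool.Agent.Y614.XF.Perd
import Pool.Agent.Y532.XF.Ch
import Pool.Agent.Y686.XF.Reg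
import Pool.Agent.Y514.XF.Qval
import Pool.Agent.Y31.XF.Inz
import Pool.Agent.Y697.XF.Regu

/-!
# The independent parts of the comparison over the fields of odd degree, assembled
-/

set_option autoImplicit false

namespace Pool.Agent.Run7.h701.TW

/-- all the parts -/
theorem parts : Pool.Agent.Y682.XF.Parts where
  hecke := Pool.Agent.Y688.XD.s_hecke
  apev := Pool.Agent.Y461.XD.s_apev
  nz := Pool.Agent.Y758.XD.s_nz
  lkd := Pool.Agent.Y954.XF.s_lkd Pool.Agent.Y109.XF.t_LF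
  trd := Pool.Agent.Y682.XF.s_trd
  kd := Pool.Agent.Y812.XF.t_KD
  prim := Pool.Agent.Y44.XF.s_prim
  mind := Pool.Agent.Y44.XF.s_mind
  tg := Pool.Agent.Y641.XF.s_tg
  t7 := Pool.Agent.Y641.XF.s_t7
  t2 := Pool.Agent.Y641.XF.s_t2
  ti := Pool.Agent.Y641.XF.s_ti
  ts := Pool.Agent.Y641.XF.s_ts
  tamd := Pool.Agent.Y813.XF.s_tamd
  tord := Pool.Agent.Y665.XF.t_TORD
  perd := Pool.Agent.Y614.XF.perd
  ht := Pool.Agent.Y812.XF.t_HT
  ch := Pool.Agent.Y532.XF.t_ch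
  reg := Pool.Agent.Y686.XF.t_REG
  qval := Pool.Agent.Y514.XF.s_qval
  inz := Pool.Agent.Y31.XF.s_inz

end Pool.Agent.Run7.h701.TW
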