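import Pool.Agent.Run7.h701.TW.Mat
import Pool.Agent.Run7.h268.FN.Box

/-!
# The matrix of the split primes as the matrix of a graph with marked vertices
-/

set_option autoImplicit false
set_option linter.style.haveILetI false

open Finset

namespace Pool.Agent.Run7.h701.TW

open scoped Classical

open Pool.Agent.Y687
open Run7.h268.FN (GdM SolM cuM)
open Pool.Agent.Y703.CQ (nr)

/-- the entries of the product of the matrix with the indicator function of `I` -/
noncomputable def rw' (P S I : Finset ℕ) (p : ℕ) : ZMod 2 :=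
  if p ∈ I then nn ((∏ q ∈ P \ I, q) * ∏ q ∈ S, q) p else ee p (∏ q ∈ I, q)

theorem det_rows {P S : Finset ℕ} (hP : ∀ p ∈ P, Split p) (hS : ∀ q ∈ S, Inert q) :
    (RR P S).det ≠ 0 ↔ ∀ I ⊆ P, I.Nonempty → ∃ p ∈ P, rw' P S I p ≠ 0 := by
  constructor
  · intro hdet I hI hne
    by_contra hcon
    push Not at hcon
    apply hdet
    refine Matrix.exists_mulVec_eq_zero_iff.1 ⟨fun p' : P => if (p' : ℕ) ∈ I then 1 else 0, ?_, ?_⟩
    · obtain ⟨p, hp⟩ := hne
      intro h
      have h1 := congrFun h ⟨p, hI hp⟩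
      simp only [Pi.zero_apply] at h1
      rw [if_pos hp] at h1
      exact one_ne_zero h1
    · funext p
      rw [RR_row hP hS hI]
      exact hcon p p.2
  · intro H hdet
    obtain ⟨v, hv0, hv⟩ := Matrix.exists_mulVec_eq_zero_iff.2 hdet
    set I : Finset ℕ := (Finset.univ.filter fun p : P => v p ≠ 0).image fun p : P => (p : ℕ) with hI
    have hmem : ∀ p : P, (p : ℕ) ∈ I ↔ v p ≠ 0 := by
      intro p
      rw [hI, Finset.mem_image]
      constructor
      · rintro ⟨q, hq, hqp⟩
        have : q = p := Subtype.ext hqp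
        rw [← this]
        exact (Finset.mem_filter.1 hq).2
      · intro h
        exact ⟨p, Finset.mem_filter.2 ⟨Finset.mem_univ _, h⟩, rfl⟩
    have hIP : I ⊆ P := by
      intro p hp
      rw [hI, Finset.mem_image] at hp
      obtain ⟨q, -, rfl⟩ := hp
      exact q.2
    have hIne : I.Nonempty := by
      obtain ⟨p, hp⟩ := Function.ne_iff.1 hv0
      exact ⟨p, (hmem p).2 hp⟩
    have hvI : v = fun p' : P => if (p' : ℕ) ∈ I then 1 else 0 := by
      funext p
      by_cases h : v p = 0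
      · rw [h, if_neg (fun h' => (hmem p).1 h' h)]
      · rw [if_pos ((hmem p).2 h)]
        have : ∀ x : ZMod 2, x ≠ 0 → x = 1 := by decide
        exact this _ h
    rw [hvI] at hv
    obtain ⟨p, hp, h⟩ := H I hIP hIne
    have h1 := congrFun hv ⟨p, hp⟩
    rw [RR_row hP hS hIP] at h1
    exact h h1

/-- the left side of the equation at a marked prime -/
theorem row_eq {P S : Finset ℕ} (hP : ∀ p ∈ P, Split p) (hS : ∀ q ∈ S, Inert q)
    (hd : Disjoint P S) (x : ℕ → ZMod 2) {p : ℕ} (hpP : p ∈ P) :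
    ∑ q ∈ P ∪ S, nr p q * (cuM Split x q + x p) + nn 1 p * x p =
      rw' P S (P.filter fun q => x q ≠ 0) p := by
  have hp := hP p hpP
  have hp2 : p ≠ 2 := by rintro rfl; have := hp.2.1; omega
  have h01 : ∀ y : ZMod 2, y ≠ 0 → y = 1 := by decide
  have hnr : ∀ q, nr p q = ee p q := fun q => rfl
  have hpp : ee p p = 0 := by
    unfold ee
    rw [if_pos]
    rw [CharP.cast_eq_zero]
    exact ⟨0, by ring⟩
  have hndP : ∀ q ∈ P, q ≠ p → ¬ p ∣ q := fun q hq hne h =>
    hne ((Nat.prime_dvd_prime_iff_eq hp.1 (hP q hq).1).1 h).symm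
  have hndS : ∀ q ∈ S, ¬ p ∣ q := by
    intro q hq h
    have h1 := (Nat.prime_dvd_prime_iff_eq hp.1 (hS q hq).1).1 h
    subst h1
    exact Finset.disjoint_left.1 hd hpP hq
  have hcS : ∀ q ∈ S, cuM Split x q = 0 := by
    intro q hq
    unfold cuM
    rw [if_neg]
    intro h
    have h1 := h.2.1
    have h2 := (hS q hq).2.1
    omega
  have hcP : ∀ q ∈ P, cuM Split x q = x q := fun q hq => if_pos (hP q hq)
  rw [Finset.sum_union hd]
  have e1 : ∑ q ∈ P, nr p q * (cuM Split x q + x p) = ∑ q ∈ P, ee p q * (x q + x p) :=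
    Finset.sum_congr rfl fun q hq => by rw [hcP q hq, hnr]
  have e2 : ∑ q ∈ S, nr p q * (cuM Split x q + x p) = (∑ q ∈ S, ee p q) * x p := by
    rw [Finset.sum_mul]
    exact Finset.sum_congr rfl fun q hq => by rw [hcS q hq, hnr, zero_add]
  rw [e1, e2]
  unfold rw'
  by_cases hx : x p = 0
  · have hpn : p ∉ P.filter fun q => x q ≠ 0 := fun h => (Finset.mem_filter.1 h).2 hx
    rw [hx, mul_zero, mul_zero, add_zero, add_zero,
      if_neg hpn, ee_prod hp.1 hp2 _ fun q hq =>
        hndP q (Finset.mem_filter.1 hq).1 fun h => hpn (h ▸ hq)]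
    rw [Finset.sum_filter]
    refine Finset.sum_congr rfl fun q _ => ?_
    rw [add_zero]
    by_cases h : x q = 0
    · rw [h, mul_zero, if_neg (fun h' => h' rfl)]
    · rw [if_pos h, h01 _ h, mul_one]
  · have hx1 := h01 _ hx
    rw [hx1, mul_one, mul_one, if_pos (Finset.mem_filter.2 ⟨hpP, hx⟩)]
    have hPI : ∀ q ∈ P \ (P.filter fun q => x q ≠ 0), Split q :=
      fun q hq => hP q (Finset.mem_sdiff.1 hq).1
    have hpI : p ∉ P \ (P.filter fun q => x q ≠ 0) :=
      fun h => (Finset.mem_sdiff.1 h).2 (Finset.mem_filter.2 ⟨hpP, hx⟩)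
    have hn1 : ¬ p ∣ ∏ q ∈ P \ (P.filter fun q => x q ≠ 0), q := not_dvd_split hp.1 hPI hpI
    have hn2 : ¬ p ∣ ∏ q ∈ S, q := split_not_dvd hp hS
    have hnd : ¬ p ∣ (∏ q ∈ P \ (P.filter fun q => x q ≠ 0), q) * ∏ q ∈ S, q :=
      fun h => (hp.1.dvd_mul.1 h).elim hn1 hn2
    have hc4 : ((∏ q ∈ P \ (P.filter fun q => x q ≠ 0), q) * ∏ q ∈ S, q) % 4 = 1 := by
      rw [Nat.mul_mod, mod4_prod hPI, prod_mod_four hS]
    have h3 := nn_mul (m := 1) hp (by norm_num)
      (fun h => hp.1.one_lt.ne' (Nat.dvd_one.1 h)) hc4 hnd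
    rw [mul_one] at h3
    rw [h3, ee_mul hp.1 hp2 hn1 hn2, ee_prod hp.1 hp2 S hndS,
      ee_prod hp.1 hp2 _ fun q hq => hndP q (Finset.mem_sdiff.1 hq).1 fun h => hpI (h ▸ hq)]
    have e3 : ∑ q ∈ P, ee p q * (x q + 1) =
        ∑ q ∈ P \ (P.filter fun q => x q ≠ 0), ee p q := by
      rw [← Finset.filter_not, Finset.sum_filter]
      refine Finset.sum_congr rfl fun q _ => ?_
      by_cases h : x q = 0
      · rw [h, zero_add, mul_one, if_pos (fun h' => h' rfl)]
      · rw [h01 _ h, if_neg (fun h' => h' one_ne_zero)]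
        rw [show (1 : ZMod 2) + 1 = 0 by decide, mul_zero]
    rw [e3]
    ring

/-- **the two forms of the condition** -/
theorem gdM_iff {P S : Finset ℕ} (hP : ∀ p ∈ P, Split p) (hS : ∀ q ∈ S, Inert q)
    (hd : Disjoint P S) : GdM Split (nn 1) (P ∪ S) ↔ (RR P S).det ≠ 0 := by
  rw [det_rows hP hS]
  have hsp : ∀ p ∈ P ∪ S, Split p → p ∈ P := by
    intro p hp h
    rcases Finset.mem_union.1 hp with h1 | h1
    · exact h1
    · have h2 := (hS p h1).2.1
      have h3 := h.2.1
      omega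
  constructor
  · intro H I hI hne
    by_contra hcon
    push Not at hcon
    obtain ⟨p, hp⟩ := hne
    have h1 := H (fun q => if q ∈ I then 1 else 0) ?_ p (Finset.mem_union_left _ (hI hp))
      (hP p (hI hp))
    · have h1 : (if p ∈ I then (1 : ZMod 2) else 0) = 0 := h1
      rw [if_pos hp] at h1
      exact one_ne_zero h1
    · intro q hq hsq
      have hqP := hsp q hq hsq
      rw [row_eq hP hS hd _ hqP]
      have e : (P.filter fun q => (fun q => if q ∈ I then (1 : ZMod 2) else 0) q ≠ 0) = I := by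
        ext r
        rw [Finset.mem_filter]
        constructor
        · rintro ⟨-, h⟩
          by_contra h2
          exact h (if_neg h2)
        · intro h
          refine ⟨hI h, ?_⟩
          show (if r ∈ I then (1 : ZMod 2) else 0) ≠ 0
          rw [if_pos h]
          exact one_ne_zero
      rw [e]
      exact hcon q hqP
  · intro H x hx p hp hsp'
    have hpP := hsp p hp hsp'
    by_contra hne
    obtain ⟨q, hq, h⟩ := H (P.filter fun q => x q ≠ 0) (Finset.filter_subset _ _)
      ⟨p, Finset.mem_filter.2 ⟨hpP, hne⟩⟩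
    apply h
    rw [← row_eq hP hS hd x hq]
    exact hx q (Finset.mem_union_left _ hq) (hP q hq)

end Pool.Agent.Run7.h701.TW
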