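import Pool.Agent.Run7.h701.TW.Pts

/-!
# The formula modulo two, and the 2-part, for the twists by at most two split primes
-/

set_option autoImplicit false
set_option linter.style.haveILetI false

open Finset NumberField NumberField.InfinitePlace IsDedekindDomain WeierstrassCurve MeasureTheory
  Filter Topology

namespace Pool.Agent.Run7.h701.TW

open scoped Classical

open Pool.Agent.TH841.NF.D (Sha)
open Pool.Agent.W97.MT (ap E14)
open Pool.Agent.Y700 (WM)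
open Pool.Agent.Y687
open Pool.Agent.Y682 (NCl)
open Pool.Agent.Y682.XF (base pts factor MinimalAt Tam Sha2 tors rank Omega TwoPart Parts S_REGU
  sha2_card final)

theorem det_one {p : ℕ} {S : Finset ℕ} : (RR {p} S).det = nn (∏ q ∈ S, q) p := by
  rw [Matrix.det_eq_elem_of_subsingleton _ (⟨p, Finset.mem_singleton_self p⟩ :
    ({p} : Finset ℕ)), RR_apply, if_pos rfl]
  show nn ((∏ q ∈ ({p} : Finset ℕ).erase p, q) * ∏ q ∈ S, q) p = _
  have he : ({p} : Finset ℕ).erase p = ∅ := Finset.erase_singleton p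
  rw [he, Finset.prod_empty, one_mul]

theorem det_two {p1 p2 : ℕ} (hne : p1 ≠ p2) {S : Finset ℕ} (h1 : Split p1) (h2 : Split p2)
    (hS : ∀ q ∈ S, Inert q) : (RR {p1, p2} S).det =
      nn (∏ q ∈ S, q) p1 * nn (∏ q ∈ S, q) p2 +
        ee p1 p2 * (nn (∏ q ∈ S, q) p1 + nn (∏ q ∈ S, q) p2) := by
  have hm4 := prod_mod_four hS
  have hp14 : p1 % 4 = 1 := by have := h1.2.1; omega
  have hp24 : p2 % 4 = 1 := by have := h2.2.1; omega
  have hp12 : ¬ p1 ∣ p2 := fun h => hne ((Nat.prime_dvd_prime_iff_eq h1.1 h2.1).1 h)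
  have hp21 : ¬ p2 ∣ p1 := fun h => hne ((Nat.prime_dvd_prime_iff_eq h2.1 h1.1).1 h).symm
  rw [det_pair hne, RR_apply, RR_apply, RR_apply, RR_apply, if_pos rfl, if_pos rfl,
    if_neg hne, if_neg hne.symm]
  show nn ((∏ q ∈ ({p1, p2} : Finset ℕ).erase p1, q) * ∏ q ∈ S, q) p1 *
    nn ((∏ q ∈ ({p1, p2} : Finset ℕ).erase p2, q) * ∏ q ∈ S, q) p2 - ee p1 p2 * ee p2 p1 = _
  have e1 : ({p1, p2} : Finset ℕ).erase p1 = {p2} := by
    ext q
    simp only [Finset.mem_erase, Finset.mem_insert, Finset.mem_singleton]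
    constructor
    · rintro ⟨a, b | b⟩
      · exact absurd b a
      · exact b
    · rintro rfl
      exact ⟨hne.symm, Or.inr rfl⟩
  have e2 : ({p1, p2} : Finset ℕ).erase p2 = {p1} := by
    ext q
    simp only [Finset.mem_erase, Finset.mem_insert, Finset.mem_singleton]
    constructor
    · rintro ⟨a, b | b⟩
      · exact b
      · exact absurd b a
    · rintro rfl
      exact ⟨hne, Or.inl rfl⟩
  rw [e1, e2, Finset.prod_singleton, Finset.prod_singleton,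
    nn_mul h1 hm4 (split_not_dvd h1 hS) hp24 hp12, nn_mul h2 hm4 (split_not_dvd h2 hS) hp14 hp21,
    ← ee_symm h1.1 h2.1 hne hp14 hp24]
  ring

/-- there are infinitely many inert primes such that the matrix becomes invertible -/
theorem inf_q {P S : Finset ℕ} (hP : ∀ p ∈ P, Split p) (hS : ∀ q ∈ S, Inert q)
    (hc : P.card ≤ 2) : {q : ℕ | Inert q ∧ q ∉ S ∧ (RR P (insert q S)).det ≠ 0}.Infinite := by
  have h012 : P.card = 0 ∨ P.card = 1 ∨ P.card = 2 := by omega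
  have hnn : ∀ {m p : ℕ}, ¬ 8 ∣ NN m p → nn m p = 1 := fun h => if_neg h
  rcases h012 with h | h | h
  · rw [Finset.card_eq_zero] at h
    subst h
    haveI : NeZero 56 := ⟨by norm_num⟩
    have hunit : IsUnit ((45 : ℕ) : ZMod 56) := by
      rw [ZMod.isUnit_iff_coprime]
      norm_num
    have hinf := Nat.infinite_setOfPred_prime_and_eq_mod hunit
    refine (hinf.sdiff (S.finite_toSet)).mono ?_
    rintro q ⟨⟨hq, hqn⟩, hqS⟩
    rw [ZMod.natCast_eq_natCast_iff] at hqn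
    have hq56 : q % 56 = 45 := hqn
    refine ⟨⟨hq, by omega, by omega⟩, fun h => hqS (by simpa using h), ?_⟩
    rw [Matrix.det_isEmpty]
    exact one_ne_zero
  · obtain ⟨p, rfl⟩ := Finset.card_eq_one.1 h
    have hp := hP p (Finset.mem_singleton_self p)
    refine (infinite_q hp hS).mono ?_
    rintro q ⟨h1, h2, h3⟩
    refine ⟨h1, h2, ?_⟩
    rw [det_one]
    have h4 : nn (∏ r ∈ insert q S, r) p = 1 := if_neg h3
    rw [h4]
    exact one_ne_zero
  · obtain ⟨p1, p2, hne, rfl⟩ := Finset.card_eq_two.1 h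
    have h1 := hP p1 (by simp)
    have h2 := hP p2 (by simp)
    refine (infinite_q2 hne h1 h2 hS).mono ?_
    rintro q ⟨k1, k2, k3, k4⟩
    refine ⟨k1, k2, ?_⟩
    have hS' : ∀ r ∈ insert q S, Inert r := by
      intro r hr
      rcases Finset.mem_insert.1 hr with rfl | hr
      · exact k1
      · exact hS r hr
    rw [det_two hne h1 h2 hS', hnn k3, hnn k4]
    have key : ∀ e : ZMod 2, (1 : ZMod 2) * 1 + e * (1 + 1) ≠ 0 := by decide
    exact key _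

/-- The formula modulo two: `z = L(1) √|Δ_K| (#tors)² / (Ω Tam)` is a 2-adic integer, and it is a
2-adic unit if and only if the rank is zero and the 2-primary part of the Tate-Shafarevich group is
trivial. -/
def ModTwo (K : Type) [Field K] [NumberField K] (W : WeierstrassCurve ℤ) : Prop :=
  ∃ (L : ℂ → ℂ) (z : ℚ), Differentiable ℂ L ∧
    (∀ s : ℂ, 3 / 2 < s.re → HasProd (factor (K := K) W s) (L s)) ∧
    0 < Omega K W ∧ 0 < Tam K W ∧ 0 < Nat.card (tors K W) ∧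
    L 1 * ((√|(discr K : ℝ)| : ℝ) : ℂ) * (Nat.card (tors K W) : ℂ) ^ 2 =
      z * ((Omega K W * Tam K W : ℝ) : ℂ) ∧
    (z = 0 ∨ 0 ≤ padicValRat 2 z) ∧
    ((z ≠ 0 ∧ padicValRat 2 z = 0) ↔ (rank K W = 0 ∧ Nat.card (Sha2 K W) = 1))

/-- no element of order two -/
theorem sha2_iff {K : Type} [Field K] [NumberField K] {W : WeierstrassCurve ℤ} :
    Nat.card (Sha2 K W) = 1 ↔ ∀ y : Sha (base W K), 2 • y = 0 → y = 0 := by
  refine ⟨fun h y hy => ?_, sha2_card⟩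
  have h1 := (Nat.card_eq_one_iff_unique.1 h).1
  have hmem : y ∈ Sha2 K W := ⟨1, by rw [pow_one]; exact hy⟩
  exact congrArg Subtype.val (h1.elim (⟨y, hmem⟩ : Sha2 K W) 0)

/-- **the algebraic side** -/
theorem alg_iff {P S : Finset ℕ} (hP : ∀ p ∈ P, Split p) (hS : ∀ q ∈ S, Inert q) {D : ℤ}
    (hD : D = (((∏ p ∈ P, p) * ∏ q ∈ S, q : ℕ) : ℤ)) :
    (rank ℚ (WM D) = 0 ∧ Nat.card (Sha2 ℚ (WM D)) = 1) ↔ (RR P S).det ≠ 0 := by
  rw [← hyp_iff hP hS, sha2_iff, hD]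
  exact Pool.Agent.Run7.h743.SX.zero_sha_iff (P := P) (S := S) hP hS

/-- **the main theorem** -/
theorem main_all (H : Parts) (hU : S_REGU) {P S : Finset ℕ} (hP : ∀ p ∈ P, Split p)
    (hS : ∀ q ∈ S, Inert q) (hc : P.card ≤ 2) {D : ℤ}
    (hD : D = (((∏ p ∈ P, p) * ∏ q ∈ S, q : ℕ) : ℤ)) :
    (∀ v : HeightOneSpectrum (𝓞 ℚ), MinimalAt (WM D) v) ∧
    {v : HeightOneSpectrum (𝓞 ℚ) | Pool.Agent.Y682.XF.c (WM D) v ≠ 1}.Finite ∧
    ModTwo ℚ (WM D) ∧
    ((rank ℚ (WM D) = 0 ∧ Nat.card (Sha2 ℚ (WM D)) = 1) ↔ (RR P S).det ≠ 0) ∧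
    ((RR P S).det ≠ 0 → TwoPart ℚ (WM D)) ∧
    ∀ (q : ℕ) [NeZero q], IsPrimePow q → q.Coprime 14 → ∀ (M : Type) [Field M] [NumberField M]
      [IsCyclotomicExtension {q} ℚ M] (K : IntermediateField ℚ M), Odd (Module.finrank ℚ K) →
      (3 ∣ q ∨ ((Ideal.span {((2 : ℕ) : 𝓞 K)}).IsPrime ∧
        (Ideal.span {((7 : ℕ) : 𝓞 K)}).IsPrime ∧ Odd (Nat.card (NCl K)))) →
      (∀ p ∈ P ∪ S, ¬ p ∣ q ∧ (Ideal.span {((p : ℕ) : 𝓞 K)}).IsPrime) →
      (∀ v : HeightOneSpectrum (𝓞 K), MinimalAt (WM D) v) ∧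
      {v : HeightOneSpectrum (𝓞 K) | Pool.Agent.Y682.XF.c (WM D) v ≠ 1}.Finite ∧
      ModTwo K (WM D) ∧
      ((rank K (WM D) = 0 ∧ Nat.card (Sha2 K (WM D)) = 1) ↔ (RR P S).det ≠ 0) ∧
      ((RR P S).det ≠ 0 → TwoPart K (WM D)) := by
  have hD' : D = ((∏ q ∈ P ∪ S, q : ℕ) : ℤ) := by
    rw [hD, Finset.prod_union (disj hP hS)]
  have hDn : D.natAbs = ∏ q ∈ P ∪ S, q := by rw [hD', Int.natAbs_natCast]
  have hD4' := mod_of hP hS
  have hD4 : D % 4 = 1 := by rw [hD']; omega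
  have hDsq : Squarefree D := by rw [hD']; exact Int.squarefree_natCast.2 (sqf_of hP hS)
  have hΔ : (WM D).Δ ≠ 0 := by
    intro h0
    apply Pool.Agent.Y682.XF.wm_disc_ne ℚ hD4
    rw [WeierstrassCurve.map_Δ, h0, map_zero]
  have halg := alg_iff hP hS hD
  obtain ⟨hmin, hfin, hΩ, hT, ht, L, z, hL, hE, hL1, hz, hzdet⟩ := val_Q H hP hS hc hD'
  have hdQ : ((√|(discr ℚ : ℝ)| : ℝ) : ℂ) = 1 := by
    rw [Rat.numberField_discr]
    norm_num
  have htwo : (RR P S).det ≠ 0 → TwoPart ℚ (WM D) := by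
    intro hdet
    obtain ⟨hr, hs⟩ := halg.2 hdet
    obtain ⟨hz0, hzv⟩ := hzdet.2 hdet
    exact twoPart_Q H hΔ hr (sha2_iff.1 hs) hΩ hT ht hL hE hL1 hz0 hzv
  refine ⟨hmin, hfin, ⟨L, z, hL, hE, hΩ, hT, ht, by rw [hdQ, mul_one]; exact hL1, hz,
    hzdet.trans halg.symm⟩, halg, htwo, ?_⟩
  intro q _ hq hco M _ _ _ K hodd hcl hPS
  have hDp : ∀ p : ℕ, p.Prime → (p : ℤ) ∣ D → ¬ p ∣ 14 * q ∧
      (Ideal.span {((p : ℕ) : 𝓞 K)}).IsPrime := by
    intro p hp hpD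
    have h1 : p ∣ ∏ q ∈ P ∪ S, q := by
      rw [← hDn]
      exact Int.natCast_dvd.1 hpD
    have h2 : p ∈ P ∪ S := dvd_prod_primes (prime_of hP hS) hp h1
    obtain ⟨h3, h4⟩ := hPS p h2
    refine ⟨fun h => ?_, h4⟩
    rcases hp.dvd_mul.1 h with h | h
    · have h5 : p ∣ Nat.gcd (∏ q ∈ P ∪ S, q) 42 :=
        Nat.dvd_gcd h1 (h.trans (by norm_num))
      rw [cop_of hP hS] at h5
      exact hp.one_lt.ne' (Nat.dvd_one.1 h5)
    · exact h3 h
  obtain ⟨f1, -, f3, -, f5, ⟨e⟩, -, f8, -⟩ := final H hU q hq hco M K hodd hcl D hDsq hD4 hDp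
  obtain ⟨kΩ, kT, kt, L₀, L', ρ, hL₀, hL', hE₀, hE', hρ, hρv, hval⟩ :=
    ana_K H q hq hco M K hodd hcl D hDsq hD4 hDp
  have hLL : L₀ = L := L_unique hL₀ hL hE₀ hE
  subst hLL
  have hcard : Nat.card (Sha2 K (WM D)) = Nat.card (Sha2 ℚ (WM D)) := Nat.card_congr e.toEquiv
  have halgK : (rank K (WM D) = 0 ∧ Nat.card (Sha2 K (WM D)) = 1) ↔ (RR P S).det ≠ 0 := by
    rw [f5, hcard]
    exact halg
  have hfact : Fact (Nat.Prime 2) := ⟨Nat.prime_two⟩
  refine ⟨f1, f3, ⟨L', ρ * z, hL', hE', kΩ, kT, kt, ?_, ?_, ?_⟩, halgK, fun hdet => f8.2 (htwo hdet)⟩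
  · -- the value
    have hne : ((Omega ℚ (WM D) * Tam ℚ (WM D) : ℝ) : ℂ) ≠ 0 := by
      have : (Omega ℚ (WM D) * Tam ℚ (WM D) : ℝ) ≠ 0 := (mul_pos hΩ (by exact_mod_cast hT)).ne'
      exact_mod_cast this
    apply mul_right_cancel₀ hne
    rw [hval, hL1]
    push_cast
    ring
  · rcases hz with hz | hz
    · left
      rw [hz, mul_zero]
    · by_cases hz0 : z = 0
      · left
        rw [hz0, mul_zero]
      · right
        rw [padicValRat.mul hρ hz0, hρv, zero_add]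
        exact hz
  · rw [halgK, ← hzdet]
    constructor
    · rintro ⟨h1, h2⟩
      have hz0 : z ≠ 0 := by
        rintro rfl
        exact h1 (mul_zero _)
      rw [padicValRat.mul hρ hz0, hρv, zero_add] at h2
      exact ⟨hz0, h2⟩
    · rintro ⟨h1, h2⟩
      exact ⟨mul_ne_zero hρ h1, by rw [padicValRat.mul hρ h1, hρv, zero_add]; exact h2⟩

end Pool.Agent.Run7.h701.TW
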