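import Pool.Agent.Run7.h701.TW.Sum
import Pool.Agent.Y682.XF.Fin

/-!
# The central value of the twist by `D > 0` in terms of the sum of the modular symbols
-/

set_option autoImplicit false

open Finset NumberField NumberField.InfinitePlace IsDedekindDomain WeierstrassCurve MeasureTheory
  Filter Topology

namespace Pool.Agent.Run7.h701.TW

open scoped Classical

open Pool.Agent.W97.MT (ap E14 II)
open Pool.Agent.Y700 (WM)
open Pool.Agent.Y687 (Symb Symb2 SS)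
open Pool.Agent.Y682.XF
open Pool.Agent.Y682.XD (three_hyp hypK_of prime_tr)
open Pool.Agent.Y682.XT (gen_of_prime GG mkG)
open H300.HW

/-- `SS` of `D`, the central value, and the invariants of the twist -/
theorem ana_Q (H : Parts) (D : ℤ) (hDsq : Squarefree D) (hD4 : D % 4 = 1) (hDpos : 0 < D)
    (h42 : D.natAbs.Coprime 42) :
    (∀ v : HeightOneSpectrum (𝓞 ℚ), MinimalAt (WM D) v) ∧
    {v : HeightOneSpectrum (𝓞 ℚ) | c (WM D) v ≠ 1}.Finite ∧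
    0 < Omega ℚ (WM D) ∧ 0 < Tam ℚ (WM D) ∧
    padicValNat 2 (Tam ℚ (WM D)) =
      1 + ∑ p ∈ D.natAbs.primeFactors, (if IsSquare (-7 : ZMod p) then 2 else 1) ∧
    (tors ℚ (WM D)).Finite ∧ padicValNat 2 (Nat.card (tors ℚ (WM D))) = 1 ∧
    ∃ (s : ℚ → ℤ) (L : ℂ → ℂ) (e : ℚ), Symb2 s (fun l => ap E14 l) ∧ Differentiable ℂ L ∧
      (∀ z : ℂ, 3 / 2 < z.re → HasProd (factor (K := ℚ) (WM D) z) (L z)) ∧
      (e = 1 ∨ e = -1) ∧
      L 1 = ((e * (SS s D.natAbs D.natAbs : ℚ) / 6 : ℚ) : ℂ) * ((Omega ℚ (WM D) : ℝ) : ℂ) := by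
  have hd0 : D.natAbs ≠ 0 := by omega
  have hz1 : NeZero D.natAbs := ⟨hd0⟩
  have hz2 : NeZero (3 ^ (0 + 1) * D.natAbs) := ⟨Nat.mul_ne_zero (by norm_num) hd0⟩
  have hz3 : NeZero (3 ^ (0 + 1)) := ⟨by norm_num⟩
  let M := CyclotomicField (3 ^ (0 + 1)) ℚ
  have hc : IsCyclotomicExtension {3 ^ (0 + 1)} ℚ M :=
    CyclotomicField.isCyclotomicExtension (3 ^ (0 + 1)) ℚ
  let K : IntermediateField ℚ M := ⊥
  have hodd : Odd (Module.finrank ℚ K) := by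
    rw [IntermediateField.finrank_bot]
    exact odd_one
  obtain ⟨h2, h7, hN⟩ := three_hyp 0 M K hodd
  have hq : IsPrimePow (3 ^ (0 + 1)) := Nat.prime_three.isPrimePow.pow (by norm_num)
  have hco : (3 ^ (0 + 1)).Coprime 14 := by norm_num
  have eK : ℚ ≃+* K := (IntermediateField.botEquiv ℚ M).toRingEquiv.symm
  have hD14 : (D.natAbs).Coprime 14 := Nat.Coprime.coprime_dvd_right (by norm_num) h42
  have hpK : ∀ p : ℕ, p.Prime → (Ideal.span {((p : ℕ) : 𝓞 K)}).IsPrime := fun p hp =>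
    prime_tr eK p (prime_Q hp)
  have hpd : ∀ p : ℕ, p.Prime → p ∣ D.natAbs → ¬ p ∣ 14 * (3 ^ (0 + 1)) := by
    intro p hp hpD hp42
    have h1 : p ∣ Nat.gcd D.natAbs 42 := Nat.dvd_gcd hpD (by norm_num at hp42 ⊢; exact hp42)
    rw [h42] at h1
    exact hp.one_lt.ne' (Nat.dvd_one.1 h1)
  have hDiQ : ∀ p : ℕ, p.Prime → (p : ℤ) ∣ D → (Ideal.span {((p : ℕ) : 𝓞 ℚ)}).IsPrime :=
    fun p hp _ => prime_Q hp
  have hoddQ : Odd (Module.finrank ℚ ℚ) := by rw [Module.finrank_self]; exact odd_one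
  obtain ⟨s, t, P, Op, Om, hSy, g2, g3, hP⟩ := exists_syP
  have hypK := hypK_of (L := M) (K := K) H.apev hSy hq hco hodd h2 h7 hN
  have hgen : ∀ p : ℕ, p.Prime → p ∣ D.natAbs → ¬ p ∣ 14 * (3 ^ (0 + 1)) ∧
      ∀ t : (ZMod (3 ^ (0 + 1)))ˣ, (t : ZMod (3 ^ (0 + 1))) = (p : ZMod (3 ^ (0 + 1))) →
        ∀ x : GG (3 ^ (0 + 1)) M K, x ∈ Subgroup.zpowers (mkG (3 ^ (0 + 1)) M K t) :=
    fun p hp hpd' => ⟨hpd p hp hpd', fun t ht =>
      gen_of_prime (K := K) (L := M) Pool.Agent.Y692.XT.inert hp ht (hpK p hp)⟩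
  obtain ⟨G₀, Pr, hG₀, hPr, htop, hE0, hE, -, δ, hδj, gg, hgg, hgG⟩ :=
    ana_D (L := M) (K := K) Pool.Agent.Y884.XT.s_lk H.nz H.lkd H.trd H.kd H.hecke H.prim
      Pool.Agent.Y405.XT.s_det Pool.Agent.Y41.XT.s_l1 Pool.Agent.Y125.XT.s_res
      Pool.Agent.Y363.XT.s_units hSy hypK hN hDsq hD4 rfl hgen
  -- the period
  set w : ℝ := 2 * (if 0 < D then Op else Om) / √|(D : ℝ)| with hw
  have hDR : (D : ℝ) ≠ 0 := by
    have : D ≠ 0 := by omega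
    exact_mod_cast this
  have hsD : 0 < √|(D : ℝ)| := Real.sqrt_pos.2 (abs_pos.2 hDR)
  have hw0 : 0 < w := by
    rw [hw]
    refine div_pos (mul_pos two_pos ?_) hsD
    split_ifs
    exact hSy.pos
  have hper : realPeriod (WM D) = w := H.perd P Op Om hSy.pos hSy.pos' g2 g3 hP D hD4
  have hOQ : Omega ℚ (WM D) = w := by
    unfold Omega
    rw [hper, nr_Q.1, nr_Q.2, pow_zero, mul_one, pow_one]
  obtain ⟨hTf', hTv'⟩ := H.tamd H.tg H.t7 H.t2 H.ti H.ts D hDsq hD4 hD14 ℚ hoddQ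
    (prime_Q Nat.prime_two) (prime_Q (by norm_num)) hDiQ
  have hT0' : Tam ℚ (WM D) ≠ 0 := by
    intro h0
    rw [h0, show padicValNat 2 0 = 0 by simp] at hTv'
    omega
  obtain ⟨htf, htv'⟩ := H.tord D hD4 ℚ hoddQ
  have hD2 : √|(D : ℝ)| = √(D.natAbs : ℝ) := by
    congr 1
    rw [Nat.cast_natAbs, Int.cast_abs]
  have hsd : ((√(D.natAbs : ℝ) : ℝ) : ℂ) ^ 2 = (D.natAbs : ℂ) := by
    rw [← Complex.ofReal_pow, Real.sq_sqrt (Nat.cast_nonneg _)]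
    push_cast
    rfl
  rw [if_pos hDpos, one_mul] at hgg
  obtain ⟨e, he, hge⟩ : ∃ e : ℚ, (e = 1 ∨ e = -1) ∧ gg = (e : ℂ) * ((√(D.natAbs : ℝ) : ℝ) : ℂ) := by
    rcases sq_eq_sq_iff_eq_or_eq_neg.1 (hgg.trans hsd.symm) with h3 | h3
    · exact ⟨1, Or.inl rfl, by push_cast; rw [one_mul]; exact h3⟩
    · exact ⟨-1, Or.inr rfl, by push_cast; rw [neg_one_mul]; exact h3⟩
  have hsd0 : ((√(D.natAbs : ℝ) : ℝ) : ℂ) ≠ 0 := by
    rw [← hD2]
    exact_mod_cast hsD.ne'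
  have hee : (e : ℂ) * e = 1 := by
    rcases he with rfl | rfl <;> norm_num
  have hwd : (w : ℂ) * ((√(D.natAbs : ℝ) : ℝ) : ℂ) = 2 * Op := by
    have h8 : w * √(D.natAbs : ℝ) = 2 * Op := by
      rw [hw, if_pos hDpos, hD2, div_mul_cancel₀]
      rw [← hD2]
      exact hsD.ne'
    exact_mod_cast h8
  have hD4' : D.natAbs % 4 = 1 := by omega
  rw [sum_eq' hSy.re D.natAbs hD4' δ hδj] at hgG
  refine ⟨H.mind D hDsq hD4 hD14 ℚ hDiQ, hTf', by rw [hOQ]; exact hw0, Nat.pos_of_ne_zero hT0',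
    hTv', htf, htv', s, G₀, e, hSy.H, hG₀, hE0, he, ?_⟩
  rw [hOQ]
  apply mul_right_cancel₀ hsd0
  have h9 : (e : ℂ) * ((√(D.natAbs : ℝ) : ℝ) : ℂ) * G₀ 1 =
      (Op / 3 : ℂ) * ((SS s D.natAbs D.natAbs : ℤ) : ℂ) := by
    rw [← hge]
    exact hgG
  push_cast
  linear_combination (e : ℂ) * h9 - G₀ 1 * ((√(D.natAbs : ℝ) : ℝ) : ℂ) * hee -
    (e * (SS s D.natAbs D.natAbs : ℂ) / 6) * hwd

end Pool.Agent.Run7.h701.TW
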