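import Pool.Agent.Run7.h701.TW.Fin

/-!
# The central value over the fields of odd degree
-/

set_option autoImplicit false

open Finset NumberField NumberField.InfinitePlace IsDedekindDomain WeierstrassCurve MeasureTheory
  Filter Topology IsCyclotomicExtension.Rat

namespace Pool.Agent.Run7.h701.TW

open scoped Classical

open Pool.Agent.W97.MT (ap E14 II)
open Pool.Agent.Y700 (WM)
open Pool.Agent.Y687 (Symb Symb2 SS Split Inert)
open Pool.Agent.Y682 (NCl)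
open Pool.Agent.Y682.XF
open Pool.Agent.Y682.XD
open Pool.Agent.Y682.XT
open H300.HW

/-- the central value over `K` and over the rationals -/
theorem ana_K (H : Pool.Agent.Y682.XF.Parts) (q : ℕ) [NeZero q] (hq : IsPrimePow q) (hco : q.Coprime 14) (M : Type)
    [Field M] [NumberField M] [IsCyclotomicExtension {q} ℚ M] (K : IntermediateField ℚ M)
    (hodd : Odd (Module.finrank ℚ K))
    (hcl : 3 ∣ q ∨ ((Ideal.span {((2 : ℕ) : 𝓞 K)}).IsPrime ∧
      (Ideal.span {((7 : ℕ) : 𝓞 K)}).IsPrime ∧ Odd (Nat.card (NCl K))))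
    (D : ℤ) (hDsq : Squarefree D) (hD4 : D % 4 = 1)
    (hDp : ∀ p : ℕ, p.Prime → (p : ℤ) ∣ D → ¬ p ∣ 14 * q ∧ (Ideal.span {((p : ℕ) : 𝓞 K)}).IsPrime) :
    0 < Omega K (WM D) ∧ 0 < Tam K (WM D) ∧ 0 < Nat.card (tors K (WM D)) ∧
    ∃ (L₀ L : ℂ → ℂ) (ρ : ℚ), Differentiable ℂ L₀ ∧ Differentiable ℂ L ∧
      (∀ z : ℂ, 3 / 2 < z.re → HasProd (factor (K := ℚ) (WM D) z) (L₀ z)) ∧
      (∀ z : ℂ, 3 / 2 < z.re → HasProd (factor (K := K) (WM D) z) (L z)) ∧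
      ρ ≠ 0 ∧ padicValRat 2 ρ = 0 ∧
      L 1 * ((√|(discr K : ℝ)| : ℝ) : ℂ) * (Nat.card (tors K (WM D)) : ℂ) ^ 2 *
          ((Omega ℚ (WM D) * Tam ℚ (WM D) : ℝ) : ℂ) =
        ρ * (L₀ 1 * (Nat.card (tors ℚ (WM D)) : ℂ) ^ 2) *
          ((Omega K (WM D) * Tam K (WM D) : ℝ) : ℂ) := by
  -- the field
  obtain ⟨h2, h7, hN⟩ : (Ideal.span {((2 : ℕ) : 𝓞 K)}).IsPrime ∧
      (Ideal.span {((7 : ℕ) : 𝓞 K)}).IsPrime ∧ Odd (Nat.card (NCl K)) := by
    rcases hcl with h3 | h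
    · obtain ⟨n, hn⟩ : ∃ n, q = 3 ^ (n + 1) := by
        obtain ⟨l, k, hl, hk, rfl⟩ := hq
        have hl' := hl.nat_prime
        have h4 : l = 3 := ((Nat.prime_dvd_prime_iff_eq Nat.prime_three hl').1
          (Nat.prime_three.dvd_of_dvd_pow h3)).symm
        subst h4
        exact ⟨k - 1, by rw [Nat.sub_add_cancel hk]⟩
      have key : ∀ (q' : ℕ) [NeZero q'] (M : Type) [Field M] [NumberField M]
          [IsCyclotomicExtension {q'} ℚ M] (n : ℕ), q' = 3 ^ (n + 1) →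
          ∀ (K' : IntermediateField ℚ M), Odd (Module.finrank ℚ K') →
          (Ideal.span {((2 : ℕ) : 𝓞 K')}).IsPrime ∧
          (Ideal.span {((7 : ℕ) : 𝓞 K')}).IsPrime ∧ Odd (Nat.card (NCl K')) := by
        intro q' _ M _ _ _ n hn K' hodd'
        subst hn
        exact three_hyp n M K' hodd'
      exact key q M n hn K hodd
    · exact h
  have hd0 : D.natAbs ≠ 0 := by omega
  have hz1 : NeZero D.natAbs := ⟨hd0⟩
  have hz2 : NeZero (q * D.natAbs) := ⟨Nat.mul_ne_zero (NeZero.ne q) hd0⟩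
  have hpd : ∀ p : ℕ, p.Prime → p ∣ D.natAbs → ¬ p ∣ 14 * q ∧ (Ideal.span {((p : ℕ) : 𝓞 K)}).IsPrime :=
    fun p hp hpd => hDp p hp (Int.natCast_dvd.2 hpd)
  have hD14 : (D.natAbs).Coprime 14 := by
    refine Nat.coprime_of_dvd ?_
    intro p hp hpd' hp14
    exact (hpd p hp hpd').1 (dvd_mul_of_dvd_left hp14 _)
  have hDi : ∀ p : ℕ, p.Prime → (p : ℤ) ∣ D → (Ideal.span {((p : ℕ) : 𝓞 K)}).IsPrime :=
    fun p hp h => (hDp p hp h).2
  have hDiQ : ∀ p : ℕ, p.Prime → (p : ℤ) ∣ D → (Ideal.span {((p : ℕ) : 𝓞 ℚ)}).IsPrime :=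
    fun p hp _ => prime_Q hp
  have hoddQ : Odd (Module.finrank ℚ ℚ) := by rw [Module.finrank_self]; exact odd_one
  obtain ⟨s, t, P, Op, Om, hSy, g2, g3, hP⟩ := exists_syP
  have hypK : HypK s (fun l => ap E14 l) q M K := hypK_of H.apev hSy hq hco hodd h2 h7 hN
  have hgen : ∀ p : ℕ, p.Prime → p ∣ D.natAbs → ¬ p ∣ 14 * q ∧
      ∀ t : (ZMod q)ˣ, (t : ZMod q) = (p : ZMod q) →
        ∀ x : GG q M K, x ∈ Subgroup.zpowers (mkG q M K t) := fun p hp hpd' =>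
    ⟨(hpd p hp hpd').1, fun t ht =>
      gen_of_prime (K := K) (L := M) Pool.Agent.Y692.XT.inert hp ht (hpd p hp hpd').2⟩
  obtain ⟨G₀, Pr, hG₀, hPr, htop, hE0, hE, ⟨ρ₁, hρ₁, hρ₁v, hval⟩, δ, hδj, gg, hgg, hgG⟩ :=
    ana_D (L := M) (K := K) Pool.Agent.Y884.XT.s_lk H.nz H.lkd H.trd H.kd H.hecke H.prim
      Pool.Agent.Y405.XT.s_det Pool.Agent.Y41.XT.s_l1 Pool.Agent.Y125.XT.s_res
      Pool.Agent.Y363.XT.s_units hSy hypK hN hDsq hD4 rfl hgen
  -- the field is totally real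
  obtain ⟨φ, -⟩ := exists_phi q M
  have hcplx : nrComplexPlaces K = 0 := nr_real (φ := φ) hypK.hre
  have hrp : nrRealPlaces K = Module.finrank ℚ K := by
    have := card_add_two_mul_card_eq_rank K
    rw [← this, hcplx, mul_zero, add_zero]
  -- the period
  set w : ℝ := 2 * (if 0 < D then Op else Om) / √|(D : ℝ)| with hw
  have hDR : (D : ℝ) ≠ 0 := by
    have : D ≠ 0 := by omega
    exact_mod_cast this
  have hsD : 0 < √|(D : ℝ)| := Real.sqrt_pos.2 (abs_pos.2 hDR)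
  have hw0 : 0 < w := by
    rw [hw]
    refine div_pos (mul_pos two_pos ?_) hsD
    split_ifs
    · exact hSy.pos
    · exact hSy.pos'
  have hper : realPeriod (WM D) = w := H.perd P Op Om hSy.pos hSy.pos' g2 g3 hP D hD4
  have hOK : Omega K (WM D) = w ^ Module.finrank ℚ K := by
    unfold Omega
    rw [hper, hcplx, hrp, pow_zero, mul_one]
  have hOQ : Omega ℚ (WM D) = w := by
    unfold Omega
    rw [hper, nr_Q.1, nr_Q.2, pow_zero, mul_one, pow_one]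
  -- the curve
  obtain ⟨hTf, hTv⟩ := H.tamd H.tg H.t7 H.t2 H.ti H.ts D hDsq hD4 hD14 K hodd h2 h7 hDi
  obtain ⟨hTf', hTv'⟩ := H.tamd H.tg H.t7 H.t2 H.ti H.ts D hDsq hD4 hD14 ℚ hoddQ
    (prime_Q Nat.prime_two) (prime_Q (by norm_num)) hDiQ
  have hT0 : Tam K (WM D) ≠ 0 := by
    intro h0
    rw [h0, show padicValNat 2 0 = 0 by simp] at hTv
    omega
  have hT0' : Tam ℚ (WM D) ≠ 0 := by
    intro h0
    rw [h0, show padicValNat 2 0 = 0 by simp] at hTv'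
    omega
  obtain ⟨-, htv⟩ := H.tord D hD4 K hodd
  obtain ⟨-, htv'⟩ := H.tord D hD4 ℚ hoddQ
  have ht0 : Nat.card (tors K (WM D)) ≠ 0 := by
    intro h0
    rw [h0, show padicValNat 2 0 = 0 by simp] at htv
    omega
  have ht0' : Nat.card (tors ℚ (WM D)) ≠ 0 := by
    intro h0
    rw [h0, show padicValNat 2 0 = 0 by simp] at htv'
    omega
  -- the numbers
  set N := Module.finrank ℚ K with hNdef
  set T := Tam K (WM D) with hT
  set T₀ := Tam ℚ (WM D) with hT₀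
  set tt := Nat.card (tors K (WM D)) with htt
  set t₀ := Nat.card (tors ℚ (WM D)) with ht₀
  have hN0 : N ≠ 0 := by
    intro h0
    rw [h0] at hodd
    exact absurd hodd (by decide)
  refine ⟨by rw [hOK]; exact pow_pos hw0 _, Nat.pos_of_ne_zero hT0, Nat.pos_of_ne_zero ht0,
    G₀, fun z => G₀ z * Pr z, ρ₁ * ((tt : ℚ) / t₀) ^ 2 * ((T₀ : ℚ) / T), hG₀, hG₀.mul hPr, hE0, hE,
    ?_, ?_, ?_⟩
  · refine mul_ne_zero (mul_ne_zero hρ₁ (pow_ne_zero _ (div_ne_zero ?_ ?_))) (div_ne_zero ?_ ?_)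
    · exact_mod_cast ht0
    · exact_mod_cast ht0'
    · exact_mod_cast hT0'
    · exact_mod_cast hT0
  · have hfact : Fact (Nat.Prime 2) := ⟨Nat.prime_two⟩
    have c1 : ((tt : ℚ) / t₀) ≠ 0 := div_ne_zero (by exact_mod_cast ht0) (by exact_mod_cast ht0')
    have c4 : ((T₀ : ℚ) / T) ≠ 0 := div_ne_zero (by exact_mod_cast hT0') (by exact_mod_cast hT0)
    rw [padicValRat.mul (mul_ne_zero hρ₁ (pow_ne_zero _ c1)) c4,
      padicValRat.mul hρ₁ (pow_ne_zero _ c1), padicValRat.pow,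
      val_div_eq ht0 ht0' (htv.trans htv'.symm), val_div_eq hT0' hT0 (hTv'.trans hTv.symm), hρ₁v]
    norm_num
  · have hwN : w ^ N = w * w ^ (N - 1) := by
      rw [← pow_succ', Nat.sub_add_cancel (Nat.pos_of_ne_zero hN0)]
    rw [hOK, hOQ, hwN]
    have hval' : G₀ 1 * Pr 1 * ((√|(discr K : ℝ)| : ℝ) : ℂ) = G₀ 1 * ρ₁ * (w : ℂ) ^ (N - 1) := by
      rw [mul_assoc, hval]
      push_cast
      ring
    show G₀ 1 * Pr 1 * ((√|(discr K : ℝ)| : ℝ) : ℂ) * _ * _ = _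
    rw [hval']
    push_cast
    have c4 : (T : ℂ) ≠ 0 := by exact_mod_cast hT0
    have c6 : (t₀ : ℂ) ≠ 0 := by exact_mod_cast ht0'
    field_simp

/-- uniqueness of the `L`-function -/
theorem L_unique {K : Type} [Field K] [NumberField K] {W : WeierstrassCurve ℤ} {L L' : ℂ → ℂ}
    (hL : Differentiable ℂ L) (hL' : Differentiable ℂ L')
    (hE : ∀ z : ℂ, 3 / 2 < z.re → HasProd (factor (K := K) W z) (L z))
    (hE' : ∀ z : ℂ, 3 / 2 < z.re → HasProd (factor (K := K) W z) (L' z)) : L = L' := by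
  have h1 : AnalyticOnNhd ℂ L Set.univ := fun z _ => hL.analyticAt z
  have h2 : AnalyticOnNhd ℂ L' Set.univ := fun z _ => hL'.analyticAt z
  refine h1.eq_of_eventuallyEq h2 (z₀ := 2) ?_
  have h3 : {z : ℂ | 3 / 2 < z.re} ∈ 𝓝 (2 : ℂ) := by
    refine (isOpen_lt continuous_const Complex.continuous_re).mem_nhds ?_
    show (3 / 2 : ℝ) < (2 : ℂ).re
    norm_num
  filter_upwards [h3] with z hz
  exact (hE z hz).unique (hE' z hz)

end Pool.Agent.Run7.h701.TW
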