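import Pool.Agent.Run7.h701.TW.Mat
import Pool.Agent.Run7.h743.SX.Conv2

/-!
# The matrix of the split primes is invertible if and only if the condition of the descent holds
-/

set_option autoImplicit false
set_option linter.style.haveILetI false

open Finset

namespace Pool.Agent.Run7.h701.TW

open scoped Classical

open Pool.Agent.W97.MT (ap E14)
open Pool.Agent.Y687
open Pool.Agent.Run7.h743.SX (Hyp)

/-- a number prime to `p`, `1` modulo four and not a square modulo `p` -/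
theorem exists_nonsq {p : ℕ} (hp : p.Prime) (hp4 : p % 4 = 1) :
    ∃ c : ℕ, c % 4 = 1 ∧ ¬ p ∣ c ∧ ¬ IsSquare (c : ZMod p) := by
  haveI : Fact p.Prime := ⟨hp⟩
  have hchar : ringChar (ZMod p) ≠ 2 := by
    rw [ZMod.ringChar_zmod_n]; omega
  obtain ⟨a, ha⟩ := quadraticChar_exists_neg_one hchar
  have hns : ∀ c : ℕ, (c : ZMod p) = a → ¬ IsSquare (c : ZMod p) := by
    intro c hc hsq
    rw [hc] at hsq
    rcases eq_or_ne a 0 with h0 | h0
    · rw [h0, quadraticChar_apply, quadraticCharFun_zero] at ha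
      norm_num at ha
    · rw [(quadraticChar_one_iff_isSquare h0).2 hsq] at ha
      norm_num at ha
  obtain ⟨j, hj⟩ : ∃ j : ℕ, (a.val + p * j) % 4 = 1 := by
    have key : ∀ x y : ℕ, x < 4 → y = 1 → ∃ j, (x + y * j) % 4 = 1 := by
      intro x y hx hy
      subst hy
      exact ⟨(5 - x), by omega⟩
    obtain ⟨j, hj⟩ := key (a.val % 4) (p % 4) (Nat.mod_lt _ (by norm_num)) hp4
    refine ⟨j, ?_⟩
    rw [Nat.add_mod, Nat.mul_mod]
    rw [Nat.add_mod, Nat.mul_mod] at hj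
    simpa using hj
  have hc : ((a.val + p * j : ℕ) : ZMod p) = a := by
    push_cast
    rw [ZMod.natCast_zmod_val, CharP.cast_eq_zero, zero_mul, add_zero]
  refine ⟨a.val + p * j, hj, fun h => ?_, hns _ hc⟩
  have h0 := (ZMod.natCast_eq_zero_iff _ _).2 h
  exact hns _ hc (by rw [h0]; exact ⟨0, by ring⟩)

/-- if `8` divides the number of points, then a root is a square -/
theorem exists_root {p m : ℕ} (hp : Split p) (hm4 : m % 4 = 1) (hpm : ¬ p ∣ m) (h8 : 8 ∣ NN m p) :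
    ∃ x : ZMod p, x ^ 2 + 13 * (m : ZMod p) * x + 128 * (m : ZMod p) ^ 2 = 0 ∧ IsSquare x := by
  haveI : Fact p.Prime := ⟨hp.1⟩
  have hp8 := hp.2.1
  obtain ⟨c, hc4, hpc, hc⟩ := exists_nonsq hp.1 (by omega)
  have hcm4 : (c * m) % 4 = 1 := by rw [Nat.mul_mod, hc4, hm4]
  have hcm : ¬ p ∣ c * m := fun h => (hp.1.dvd_mul.1 h).elim hpc hpm
  have hc0 : (c : ZMod p) ≠ 0 := fun h => hpc ((ZMod.natCast_eq_zero_iff _ _).1 h)
  have hm0 : (m : ZMod p) ≠ 0 := fun h => hpm ((ZMod.natCast_eq_zero_iff _ _).1 h)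
  have n2 : (2 : ZMod p) ≠ 0 := two_ne hp.1 (by omega)
  -- the twist
  have h1 : ¬ 8 ∣ NN (c * m) p := by
    intro h
    have h2 := nn_mul hp hm4 hpm hc4 hpc
    unfold nn at h2
    rw [if_pos h, if_pos h8, zero_add] at h2
    unfold ee at h2
    rw [if_neg hc] at h2
    exact zero_ne_one h2
  have h2 := (hyp_facts p hp.1 hp8 hp.2.2 (c * m) hcm4 hcm h1).2
  -- a root
  obtain ⟨r, hr⟩ := (sq_seven p (by omega) (by omega)).2 hp.2.2
  obtain ⟨x, hx⟩ : ∃ x : ZMod p, x = (7 * (m : ZMod p) * r - 13 * m) / 2 := ⟨_, rfl⟩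
  have hx2 : 2 * x = 7 * (m : ZMod p) * r - 13 * m := by
    rw [hx]
    field_simp
  have hroot : x ^ 2 + 13 * (m : ZMod p) * x + 128 * (m : ZMod p) ^ 2 = 0 := by
    have h4 : (4 : ZMod p) ≠ 0 := by
      rw [show (4 : ZMod p) = 2 * 2 by norm_num]
      exact mul_ne_zero n2 n2
    apply mul_left_cancel₀ h4
    rw [mul_zero]
    linear_combination (2 * x + 7 * (m : ZMod p) * r + 13 * m) * hx2 - 49 * (m : ZMod p) ^ 2 * hr
  refine ⟨x, hroot, ?_⟩
  have h3 : ¬ IsSquare ((c : ZMod p) * x) := by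
    apply h2
    push_cast
    linear_combination (c : ZMod p) ^ 2 * hroot
  have hx0 : x ≠ 0 := by
    intro h0
    apply h3
    rw [h0, mul_zero]
    exact ⟨0, by ring⟩
  by_contra h4
  apply h3
  rw [sq_mul_iff hc0 hx0 (by omega)]
  tauto

theorem hyp_iff {P S : Finset ℕ} (hP : ∀ p ∈ P, Split p) (hS : ∀ q ∈ S, Inert q) :
    Hyp P S ↔ (RR P S).det ≠ 0 := by
  have hM4 : ∀ I : Finset ℕ, ((∏ q ∈ P \ I, q) * ∏ q ∈ S, q) % 4 = 1 := fun I => by
    rw [Nat.mul_mod, mod4_prod fun q hq => hP q (Finset.mem_sdiff.1 hq).1, prod_mod_four hS]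
  have hpM : ∀ (I : Finset ℕ) (p : ℕ), p ∈ P → p ∈ I → ¬ p ∣ (∏ q ∈ P \ I, q) * ∏ q ∈ S, q := by
    intro I p hp hpI h
    rcases (hP p hp).1.dvd_mul.1 h with h | h
    · exact not_dvd_split (hP p hp).1 (fun q hq => hP q (Finset.mem_sdiff.1 hq).1)
        (fun h' => (Finset.mem_sdiff.1 h').2 hpI) h
    · exact split_not_dvd (hP p hp) hS h
  constructor
  · intro H hdet
    obtain ⟨v, hv0, hv⟩ := Matrix.exists_mulVec_eq_zero_iff.2 hdet
    -- the support
    set I : Finset ℕ := (Finset.univ.filter fun p : P => v p ≠ 0).image fun p : P => (p : ℕ) with hI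
    have hmem : ∀ p : P, (p : ℕ) ∈ I ↔ v p ≠ 0 := by
      intro p
      rw [hI, Finset.mem_image]
      constructor
      · rintro ⟨q, hq, hqp⟩
        have : q = p := Subtype.ext hqp
        rw [← this]
        exact (Finset.mem_filter.1 hq).2
      · intro h
        exact ⟨p, Finset.mem_filter.2 ⟨Finset.mem_univ _, h⟩, rfl⟩
    have hIP : I ⊆ P := by
      intro p hp
      rw [hI, Finset.mem_image] at hp
      obtain ⟨q, -, rfl⟩ := hp
      exact q.2
    have hIne : I.Nonempty := by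
      obtain ⟨p, hp⟩ := Function.ne_iff.1 hv0
      exact ⟨p, (hmem p).2 hp⟩
    have hvI : v = fun p' : P => if (p' : ℕ) ∈ I then 1 else 0 := by
      funext p
      by_cases h : v p = 0
      · rw [h, if_neg (fun h' => (hmem p).1 h' h)]
      · rw [if_pos ((hmem p).2 h)]
        have : ∀ x : ZMod 2, x ≠ 0 → x = 1 := by decide
        exact this _ h
    rw [hvI] at hv
    obtain ⟨p, hp, h | h⟩ := H I hIP hIne
    · have h1 := congrFun hv ⟨p, hp⟩
      rw [RR_row hP hS hIP, if_neg h.1] at h1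
      unfold ee at h1
      rw [if_neg h.2] at h1
      exact one_ne_zero h1
    · have h1 := congrFun hv ⟨p, hp⟩
      rw [RR_row hP hS hIP, if_pos h.1] at h1
      unfold nn at h1
      by_cases h8 : 8 ∣ NN ((∏ q ∈ P \ I, q) * ∏ q ∈ S, q) p
      · obtain ⟨x, hx, hsq⟩ := exists_root (hP p hp) (hM4 I) (hpM I p hp h.1) h8
        exact h.2 x hx hsq
      · have h2 : (if 8 ∣ NN ((∏ q ∈ P \ I, q) * ∏ q ∈ S, q) p then (0 : ZMod 2) else 1) = 0 := h1
        rw [if_neg h8] at h2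
        exact one_ne_zero h2
  · intro hdet I hI hne
    obtain ⟨p, hp, h | h⟩ := cond_of_det hP hS hdet hI hne
    · exact ⟨p, hp, Or.inl h⟩
    · exact ⟨p, hp, Or.inr ⟨h.1, (hyp_facts p (hP p hp).1 (hP p hp).2.1 (hP p hp).2.2 _ (hM4 I)
        (hpM I p hp h.1) h.2).2⟩⟩

end Pool.Agent.Run7.h701.TW
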