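import Pool.Agent.Y687.K2.Main2

/-!
# The exact power of two in the sums of the modular symbols
-/

set_option autoImplicit false
set_option linter.style.haveILetI false

open Finset

namespace Pool.Agent.Run7.h701.TW

open Pool.Agent.W97.MT (ap E14)
open Pool.Agent.Y687

/-- at most two split primes, and the condition on them -/
def Ok (P S : Finset ℕ) : Prop :=
  P = ∅ ∨ (∃ p, P = {p} ∧ ¬ 8 ∣ NN (∏ q ∈ S, q) p) ∨
    ∃ p1 p2, p1 ≠ p2 ∧ P = {p1, p2} ∧ Cond2 p1 p2 (∏ q ∈ S, q)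

theorem V_of_Qc {n : ℕ} {x y : ℤ} (h : Qc n x y) (hy : ¬ (2 : ℤ) ∣ y) : V n x := by
  obtain ⟨k, hk⟩ := h
  obtain ⟨j, hj⟩ : ∃ j, y = 2 * j + 1 := ⟨y / 2, by omega⟩
  exact ⟨j + k, by rw [hk, hj]; ring⟩

theorem isII_of {S : Finset ℕ} (hS : ∀ q ∈ S, Inert q) : ∀ q ∈ S, isII (fun q => ap E14 q) q :=
  fun q hq => II_facts q (hS q hq).1 (hS q hq).2.1 (hS q hq).2.2

theorem val_one {s : ℚ → ℤ} (hs : Symb2 s (fun q => ap E14 q)) {p : ℕ} {S : Finset ℕ}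
    (hp : Split p) (hS : ∀ q ∈ S, Inert q) (hN : ¬ 8 ∣ NN (∏ q ∈ S, q) p) :
    V (S.card + 2) (SS s (∏ q ∈ insert p S, q) (∏ q ∈ insert p S, q)) := by
  have hnm := split_notMem hp hS
  obtain ⟨x, hx⟩ := (split_sp hp).xx (fun q hq => (hS q hq).1) hnm
  refine V_of_Qc ((split_sp hp).L hs.toSymb (isII_of hS) hnm hx) fun h2 =>
    (split_facts hp hS hN).1 ?_
  have hx' : ap E14 p - 2 * jacobiSym p (∏ q ∈ S, q) = 4 * x := hx
  rw [hx']
  obtain ⟨k, rfl⟩ := h2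
  exact ⟨k, by ring⟩

theorem val_two {s : ℚ → ℤ} (hs : Symb2 s (fun q => ap E14 q)) {p1 p2 : ℕ} (hne : p1 ≠ p2)
    {S : Finset ℕ} (h1 : Split p1) (h2 : Split p2) (hS : ∀ q ∈ S, Inert q)
    (hN : Cond2 p1 p2 (∏ q ∈ S, q)) :
    V (S.card + 4) (SS s (∏ q ∈ insert p1 (insert p2 S), q)
      (∏ q ∈ insert p1 (insert p2 S), q)) := by
  classical
  have hp1S := split_notMem h1 hS
  have hp2S := split_notMem h2 hS
  have hII := isII_of hS
  have s1 := split_sp h1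
  have s2 := split_sp h2
  have hprime : ∀ T ⊆ S, ∀ q ∈ T, q.Prime := fun T hT q hq => (hII q (hT hq)).1
  obtain ⟨x1, hx1⟩ : ∃ x1 : Finset ℕ → ℤ, ∀ T ⊆ S,
      ap E14 p1 - 2 * jacobiSym p1 (∏ q ∈ T, q) = 4 * x1 T := by
    refine ⟨fun T => (ap E14 p1 - 2 * jacobiSym p1 (∏ q ∈ T, q)) / 4, fun T hT => ?_⟩
    obtain ⟨x, hx⟩ := s1.xx (hprime T hT) (fun h => hp1S (hT h))
    have hx' : ap E14 p1 - 2 * jacobiSym p1 (∏ q ∈ T, q) = 4 * x := hx
    show _ = 4 * ((ap E14 p1 - 2 * jacobiSym p1 (∏ q ∈ T, q)) / 4)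
    rw [hx']
    omega
  obtain ⟨x2, hx2⟩ : ∃ x2 : Finset ℕ → ℤ, ∀ T ⊆ S,
      ap E14 p2 - 2 * jacobiSym p2 (∏ q ∈ T, q) = 4 * x2 T := by
    refine ⟨fun T => (ap E14 p2 - 2 * jacobiSym p2 (∏ q ∈ T, q)) / 4, fun T hT => ?_⟩
    obtain ⟨x, hx⟩ := s2.xx (hprime T hT) (fun h => hp2S (hT h))
    have hx' : ap E14 p2 - 2 * jacobiSym p2 (∏ q ∈ T, q) = 4 * x := hx
    show _ = 4 * ((ap E14 p2 - 2 * jacobiSym p2 (∏ q ∈ T, q)) / 4)
    rw [hx']
    omega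
  have odd1 : ¬ 8 ∣ NN (∏ q ∈ S, q) p1 → ¬ (2 : ℤ) ∣ x1 S := by
    intro h3 h4
    apply (split_facts h1 hS h3).1
    rw [hx1 S (Finset.Subset.refl _)]
    obtain ⟨k, hk⟩ := h4
    exact ⟨k, by rw [hk]; ring⟩
  have odd2 : ¬ 8 ∣ NN (∏ q ∈ S, q) p2 → ¬ (2 : ℤ) ∣ x2 S := by
    intro h3 h4
    apply (split_facts h2 hS h3).1
    rw [hx2 S (Finset.Subset.refl _)]
    obtain ⟨k, hk⟩ := h4
    exact ⟨k, by rw [hk]; ring⟩
  haveI : Fact p1.Prime := ⟨h1.1⟩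
  haveI : Fact p2.Prime := ⟨h2.1⟩
  have hcop12 : Nat.Coprime p1 p2 := (Nat.coprime_primes h1.1 h2.1).2 hne
  have hj : jacobiSym p1 p2 = 1 ∨ jacobiSym p1 p2 = -1 := by
    refine jacobiSym.eq_one_or_neg_one ?_
    rw [Int.gcd_natCast_natCast]
    exact hcop12
  have hp10 : ((p1 : ℤ) : ZMod p2) ≠ 0 := by
    rw [Ne, ZMod.intCast_zmod_eq_zero_iff_dvd, Int.natCast_dvd_natCast]
    intro h
    exact hne ((Nat.prime_dvd_prime_iff_eq h2.1 h1.1).1 h).symm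
  have hj1 : jacobiSym p1 p2 = 1 ↔ IsSquare (p1 : ZMod p2) := by
    rw [← jacobiSym.legendreSym.to_jacobiSym, legendreSym.eq_one_iff _ hp10]
    push_cast
    exact Iff.rfl
  have hmul : ∀ a b : ℤ, ¬ (2 : ℤ) ∣ a → ¬ (2 : ℤ) ∣ b → ¬ (2 : ℤ) ∣ a * b := fun a b ha hb h =>
    (Int.prime_two.dvd_or_dvd h).elim ha hb
  rcases hj with hj | hj
  · -- the symbol is one
    refine V_of_Qc (sum_split2 hs s1 s2 hne (Or.inl ⟨hj, rfl⟩) x1 x2 S hII hp1S hp2S hx1 hx2) ?_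
    rw [zero_mul, add_zero]
    rcases hN with ⟨a, b⟩ | ⟨a, -⟩
    · exact hmul _ _ (odd1 a) (odd2 b)
    · exact absurd (hj1.1 hj) a
  · -- the symbol is minus one
    refine V_of_Qc (sum_split2 hs s1 s2 hne (Or.inr ⟨hj, rfl⟩) x1 x2 S hII hp1S hp2S hx1 hx2) ?_
    rw [one_mul]
    have hor : ¬ (2 : ℤ) ∣ x1 S ∨ ¬ (2 : ℤ) ∣ x2 S := by
      rcases hN with ⟨a, -⟩ | ⟨-, a | a⟩
      · exact Or.inl (odd1 a)
      · exact Or.inl (odd1 a)
      · exact Or.inr (odd2 a)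
    rcases Int.even_or_odd' (x1 S) with ⟨u, hu | hu⟩ <;>
      rcases Int.even_or_odd' (x2 S) with ⟨v, hv | hv⟩
    · exfalso
      rcases hor with h | h
      · exact h ⟨u, hu⟩
      · exact h ⟨v, hv⟩
    · rw [hu, hv]
      rintro ⟨k, hk⟩
      have e : 2 * (k - (u * (2 * v + 1)) - u - v) = 1 := by linear_combination -hk
      omega
    · rw [hu, hv]
      rintro ⟨k, hk⟩
      have e : 2 * (k - (2 * u + 1) * v - u - v) = 1 := by linear_combination -hk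
      omega
    · rw [hu, hv]
      rintro ⟨k, hk⟩
      have e : 2 * (k - 2 * u * v - 2 * u - 2 * v - 1) = 1 := by linear_combination -hk
      omega

/-- the exact power of two in the sum of the symbols -/
theorem val_sum {s : ℚ → ℤ} (hs : Symb2 s (fun q => ap E14 q)) {P S : Finset ℕ}
    (hP : ∀ p ∈ P, Split p) (hS : ∀ q ∈ S, Inert q) (hok : Ok P S) :
    V (S.card + 2 * P.card) (SS s (∏ q ∈ P ∪ S, q) (∏ q ∈ P ∪ S, q)) := by
  classical
  rcases hok with rfl | ⟨p, rfl, hN⟩ | ⟨p1, p2, hne, rfl, hN⟩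
  · rw [Finset.empty_union, Finset.card_empty, mul_zero, add_zero]
    exact L_inert hs.toSymb S (isII_of hS)
  · rw [Finset.singleton_union, Finset.card_singleton, mul_one]
    exact val_one hs (hP p (Finset.mem_singleton_self p)) hS hN
  · rw [Finset.insert_union, Finset.singleton_union, Finset.card_pair hne]
    exact val_two hs hne (hP p1 (by simp)) (hP p2 (by simp)) hS hN

theorem disj {P S : Finset ℕ} (hP : ∀ p ∈ P, Split p) (hS : ∀ q ∈ S, Inert q) : Disjoint P S :=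
  Finset.disjoint_left.2 fun p hp => split_notMem (hP p hp) hS

theorem prime_of {P S : Finset ℕ} (hP : ∀ p ∈ P, Split p) (hS : ∀ q ∈ S, Inert q) :
    ∀ p ∈ P ∪ S, p.Prime := by
  intro p hp
  rcases Finset.mem_union.1 hp with h | h
  · exact (hP p h).1
  · exact (hS p h).1

theorem mod_of {P S : Finset ℕ} (hP : ∀ p ∈ P, Split p) (hS : ∀ q ∈ S, Inert q) :
    (∏ q ∈ P ∪ S, q) % 4 = 1 := by
  refine Finset.prod_induction _ (fun n => n % 4 = 1) ?_ (by norm_num) ?_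
  · intro a b ha hb
    rw [Nat.mul_mod, ha, hb]
  · intro p hp
    rcases Finset.mem_union.1 hp with h | h
    · have := (hP p h).2.1
      omega
    · have := (hS p h).2.1
      omega

theorem sqf_of {P S : Finset ℕ} (hP : ∀ p ∈ P, Split p) (hS : ∀ q ∈ S, Inert q) :
    Squarefree (∏ q ∈ P ∪ S, q) := squarefree_prod (prime_of hP hS)

theorem pf_of {P S : Finset ℕ} (hP : ∀ p ∈ P, Split p) (hS : ∀ q ∈ S, Inert q) :
    (∏ q ∈ P ∪ S, q).primeFactors = P ∪ S := Nat.primeFactors_prod (prime_of hP hS)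

theorem cop_of {P S : Finset ℕ} (hP : ∀ p ∈ P, Split p) (hS : ∀ q ∈ S, Inert q) :
    (∏ q ∈ P ∪ S, q).Coprime 42 := by
  refine Nat.Coprime.prod_left fun p hp => ?_
  have hpp := prime_of hP hS p hp
  rw [Nat.Prime.coprime_iff_not_dvd hpp]
  intro h
  have h1 : p ∣ 2 * 3 * 7 := h
  rw [hpp.dvd_mul, hpp.dvd_mul] at h1
  have h2 : p = 2 ∨ p = 3 ∨ p = 7 := by
    rcases h1 with (h1 | h1) | h1
    · exact Or.inl ((Nat.prime_dvd_prime_iff_eq hpp Nat.prime_two).1 h1)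
    · exact Or.inr (Or.inl ((Nat.prime_dvd_prime_iff_eq hpp Nat.prime_three).1 h1))
    · exact Or.inr (Or.inr ((Nat.prime_dvd_prime_iff_eq hpp (by norm_num)).1 h1))
  rcases Finset.mem_union.1 hp with h | h
  · have := (hP p h).2.1
    omega
  · have := (hS p h).2.1
    omega

open scoped Classical in
/-- the sum over the primes of bad reduction of the 2-adic valuations of the Tamagawa numbers -/
theorem tam_sum {P S : Finset ℕ} (hP : ∀ p ∈ P, Split p) (hS : ∀ q ∈ S, Inert q) :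
    ∑ p ∈ P ∪ S, (if IsSquare (-7 : ZMod p) then 2 else 1) = S.card + 2 * P.card := by
  rw [Finset.sum_union (disj hP hS)]
  have h1 : ∑ p ∈ P, (if IsSquare (-7 : ZMod p) then 2 else 1) = ∑ p ∈ P, 2 := by
    refine Finset.sum_congr rfl fun p hp => ?_
    obtain ⟨pp, p8, p7⟩ := hP p hp
    haveI : Fact p.Prime := ⟨pp⟩
    exact if_pos ((sq_seven p (by omega) (by omega)).2 p7)
  have h2 : ∑ p ∈ S, (if IsSquare (-7 : ZMod p) then 2 else 1) = ∑ p ∈ S, 1 := by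
    refine Finset.sum_congr rfl fun q hq => ?_
    obtain ⟨qq, q8, q7⟩ := hS q hq
    haveI : Fact q.Prime := ⟨qq⟩
    refine if_neg fun h => ?_
    have := (sq_seven q (by omega) (by omega)).1 h
    omega
  rw [h1, h2, Finset.sum_const, Finset.sum_const, smul_eq_mul, smul_eq_mul]
  ring

end Pool.Agent.Run7.h701.TW
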