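import Pool.Agent.Run7.h701.TW.Mat
import Pool.Agent.Run7.h701.TW.Val

/-!
# The sum of the modular symbols and the determinant of the matrix of the split primes
-/

set_option autoImplicit false
set_option linter.style.haveILetI false

open Finset

namespace Pool.Agent.Run7.h701.TW

open scoped Classical

open Pool.Agent.W97.MT (ap E14)
open Pool.Agent.Y687

theorem det_pair {p1 p2 : ℕ} (hne : p1 ≠ p2)
    (M : Matrix ({p1, p2} : Finset ℕ) ({p1, p2} : Finset ℕ) (ZMod 2)) :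
    M.det = M ⟨p1, by simp⟩ ⟨p1, by simp⟩ * M ⟨p2, by simp⟩ ⟨p2, by simp⟩ -
      M ⟨p1, by simp⟩ ⟨p2, by simp⟩ * M ⟨p2, by simp⟩ ⟨p1, by simp⟩ := by
  let f : Fin 2 → ({p1, p2} : Finset ℕ) := ![⟨p1, by simp⟩, ⟨p2, by simp⟩]
  have hf : Function.Bijective f := by
    constructor
    · intro i j h
      fin_cases i <;> fin_cases j
      · rfl
      · exact absurd (congrArg Subtype.val h) hne
      · exact absurd (congrArg Subtype.val h) hne.symm
      · rfl
    · rintro ⟨x, hx⟩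
      rcases Finset.mem_insert.1 hx with rfl | h
      · exact ⟨0, rfl⟩
      · rw [Finset.mem_singleton] at h
        subst h
        exact ⟨1, rfl⟩
  rw [← Matrix.det_submatrix_equiv_self (Equiv.ofBijective f hf) M, Matrix.det_fin_two]
  rfl

/-- the sum of the symbols, up to multiples of twice the expected power of two, is the determinant -/
theorem qc_sum {s : ℚ → ℤ} (hs : Symb2 s (fun q => ap E14 q)) {P S : Finset ℕ}
    (hP : ∀ p ∈ P, Split p) (hS : ∀ q ∈ S, Inert q) (hc : P.card ≤ 2) :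
    ∃ Δ : ℤ, Qc (S.card + 2 * P.card) (SS s (∏ q ∈ P ∪ S, q) (∏ q ∈ P ∪ S, q)) Δ ∧
      (Δ : ZMod 2) = (RR P S).det := by
  have h012 : P.card = 0 ∨ P.card = 1 ∨ P.card = 2 := by omega
  have hm4 := prod_mod_four hS
  rcases h012 with h | h | h
  · rw [Finset.card_eq_zero] at h
    subst h
    refine ⟨1, ?_, ?_⟩
    · rw [Finset.empty_union, Finset.card_empty, mul_zero, add_zero]
      exact (L_inert hs.toSymb S (isII_of hS)).qc
    · rw [Matrix.det_isEmpty, Int.cast_one]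
  · obtain ⟨p, rfl⟩ := Finset.card_eq_one.1 h
    have hp := hP p (Finset.mem_singleton_self p)
    have hnm := split_notMem hp hS
    have hpm := split_not_dvd hp hS
    obtain ⟨x, hx⟩ := exists_x hp hm4 hpm
    refine ⟨x, ?_, ?_⟩
    · rw [Finset.singleton_union, Finset.card_singleton, mul_one]
      exact (split_sp hp).L hs.toSymb (isII_of hS) hnm hx
    · rw [Matrix.det_eq_elem_of_subsingleton _ (⟨p, Finset.mem_singleton_self p⟩ :
        ({p} : Finset ℕ)), RR_apply, if_pos rfl]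
      show _ = nn ((∏ q ∈ ({p} : Finset ℕ).erase p, q) * ∏ q ∈ S, q) p
      have he : ({p} : Finset ℕ).erase p = ∅ := Finset.erase_singleton p
      rw [he, Finset.prod_empty, one_mul, nn_eq hp hm4 hpm hx]
  · obtain ⟨p1, p2, hne, rfl⟩ := Finset.card_eq_two.1 h
    have h1 := hP p1 (by simp)
    have h2 := hP p2 (by simp)
    have hp1S := split_notMem h1 hS
    have hp2S := split_notMem h2 hS
    have hII := isII_of hS
    have s1 := split_sp h1
    have s2 := split_sp h2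
    have hprime : ∀ T ⊆ S, ∀ q ∈ T, q.Prime := fun T hT q hq => (hII q (hT hq)).1
    obtain ⟨x1, hx1⟩ : ∃ x1 : Finset ℕ → ℤ, ∀ T ⊆ S,
        ap E14 p1 - 2 * jacobiSym p1 (∏ q ∈ T, q) = 4 * x1 T := by
      refine ⟨fun T => (ap E14 p1 - 2 * jacobiSym p1 (∏ q ∈ T, q)) / 4, fun T hT => ?_⟩
      obtain ⟨x, hx⟩ := s1.xx (hprime T hT) (fun h => hp1S (hT h))
      have hx' : ap E14 p1 - 2 * jacobiSym p1 (∏ q ∈ T, q) = 4 * x := hx
      show _ = 4 * ((ap E14 p1 - 2 * jacobiSym p1 (∏ q ∈ T, q)) / 4)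
      rw [hx']
      omega
    obtain ⟨x2, hx2⟩ : ∃ x2 : Finset ℕ → ℤ, ∀ T ⊆ S,
        ap E14 p2 - 2 * jacobiSym p2 (∏ q ∈ T, q) = 4 * x2 T := by
      refine ⟨fun T => (ap E14 p2 - 2 * jacobiSym p2 (∏ q ∈ T, q)) / 4, fun T hT => ?_⟩
      obtain ⟨x, hx⟩ := s2.xx (hprime T hT) (fun h => hp2S (hT h))
      have hx' : ap E14 p2 - 2 * jacobiSym p2 (∏ q ∈ T, q) = 4 * x := hx
      show _ = 4 * ((ap E14 p2 - 2 * jacobiSym p2 (∏ q ∈ T, q)) / 4)
      rw [hx']
      omega
    have hp14 : p1 % 4 = 1 := by have := h1.2.1; omega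
    have hp24 : p2 % 4 = 1 := by have := h2.2.1; omega
    have hp12 : ¬ p1 ∣ p2 := fun h => hne ((Nat.prime_dvd_prime_iff_eq h1.1 h2.1).1 h)
    have hp21 : ¬ p2 ∣ p1 := fun h => hne ((Nat.prime_dvd_prime_iff_eq h2.1 h1.1).1 h).symm
    have hJ : ∃ ε : ℤ, ((jacobiSym p1 p2 = 1 ∧ ε = 0) ∨ (jacobiSym p1 p2 = -1 ∧ ε = 1)) ∧
        ee p1 p2 = (ε : ZMod 2) := by
      rcases jac_ee h1.1 (by rintro rfl; omega) hp24 hp12 with ⟨a, b⟩ | ⟨a, b⟩
      · exact ⟨0, Or.inl ⟨a, rfl⟩, by rw [b, Int.cast_zero]⟩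
      · exact ⟨1, Or.inr ⟨a, rfl⟩, by rw [b, Int.cast_one]⟩
    obtain ⟨ε, hε, hε2⟩ := hJ
    refine ⟨x1 S * x2 S + ε * (x1 S + x2 S), ?_, ?_⟩
    · rw [Finset.insert_union, Finset.singleton_union, Finset.card_pair hne]
      exact sum_split2 hs s1 s2 hne hε x1 x2 S hII hp1S hp2S hx1 hx2
    · rw [det_pair hne, RR_apply, RR_apply, RR_apply, RR_apply, if_pos rfl, if_pos rfl,
        if_neg hne, if_neg hne.symm]
      show _ = nn ((∏ q ∈ ({p1, p2} : Finset ℕ).erase p1, q) * ∏ q ∈ S, q) p1 *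
        nn ((∏ q ∈ ({p1, p2} : Finset ℕ).erase p2, q) * ∏ q ∈ S, q) p2 - ee p1 p2 * ee p2 p1
      have e1 : ({p1, p2} : Finset ℕ).erase p1 = {p2} := by
        ext q
        simp only [Finset.mem_erase, Finset.mem_insert, Finset.mem_singleton]
        constructor
        · rintro ⟨a, b | b⟩
          · exact absurd b a
          · exact b
        · rintro rfl
          exact ⟨hne.symm, Or.inr rfl⟩
      have e2 : ({p1, p2} : Finset ℕ).erase p2 = {p1} := by
        ext q
        simp only [Finset.mem_erase, Finset.mem_insert, Finset.mem_singleton]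
        constructor
        · rintro ⟨a, b | b⟩
          · exact b
          · exact absurd b a
        · rintro rfl
          exact ⟨hne, Or.inl rfl⟩
      rw [e1, e2, Finset.prod_singleton, Finset.prod_singleton,
        nn_mul h1 hm4 (split_not_dvd h1 hS) hp24 hp12, nn_mul h2 hm4 (split_not_dvd h2 hS) hp14 hp21,
        ← ee_symm h1.1 h2.1 hne hp14 hp24, nn_eq h1 hm4 (split_not_dvd h1 hS) (hx1 S (subset_refl S)),
        nn_eq h2 hm4 (split_not_dvd h2 hS) (hx2 S (subset_refl S)), hε2]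
      push_cast
      ring

end Pool.Agent.Run7.h701.TW
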