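import Pool.Agent.Run7.h701.TW.Det
import Pool.Agent.Run7.h701.TW.Ana
import Pool.Agent.Y682.XF.Uniq

/-!
# The 2-part over the rationals for the twists with at most two split primes
-/

set_option autoImplicit false

open Finset NumberField NumberField.InfinitePlace IsDedekindDomain WeierstrassCurve MeasureTheory
  Filter Topology

namespace Pool.Agent.Run7.h701.TW

open scoped Classical

open Pool.Agent.TH841.NF.D (Sha)
open Pool.Agent.W97.MT (ap E14)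
open Pool.Agent.Y700 (WM)
open Pool.Agent.Y687 (Symb2 SS Split Inert V)
open Pool.Agent.Y682.XF

theorem cast_add_two (a k : ℤ) : ((a + 2 * k : ℤ) : ZMod 2) = (a : ZMod 2) :=
  ((ZMod.intCast_eq_intCast_iff_dvd_sub a (a + 2 * k) 2).2 ⟨k, by push_cast; ring⟩).symm

/-- the number `z` with `L(E_D, 1) t² = z Ω Tam` -/
theorem val_Q (H : Parts) {P S : Finset ℕ} (hP : ∀ p ∈ P, Split p) (hS : ∀ q ∈ S, Inert q)
    (hc : P.card ≤ 2) {D : ℤ} (hD : D = ((∏ q ∈ P ∪ S, q : ℕ) : ℤ)) :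
    (∀ v : HeightOneSpectrum (𝓞 ℚ), MinimalAt (WM D) v) ∧
    {v : HeightOneSpectrum (𝓞 ℚ) | c (WM D) v ≠ 1}.Finite ∧
    0 < Omega ℚ (WM D) ∧ 0 < Tam ℚ (WM D) ∧ 0 < Nat.card (tors ℚ (WM D)) ∧
    ∃ (L : ℂ → ℂ) (z : ℚ), Differentiable ℂ L ∧
      (∀ s : ℂ, 3 / 2 < s.re → HasProd (factor (K := ℚ) (WM D) s) (L s)) ∧
      L 1 * (Nat.card (tors ℚ (WM D)) : ℂ) ^ 2 = z * ((Omega ℚ (WM D) * Tam ℚ (WM D) : ℝ) : ℂ) ∧
      (z = 0 ∨ 0 ≤ padicValRat 2 z) ∧
      ((z ≠ 0 ∧ padicValRat 2 z = 0) ↔ (RR P S).det ≠ 0) := by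
  have hfact : Fact (Nat.Prime 2) := ⟨Nat.prime_two⟩
  have hDn : D.natAbs = ∏ q ∈ P ∪ S, q := by rw [hD, Int.natAbs_natCast]
  have hD4' := mod_of hP hS
  have hD4 : D % 4 = 1 := by rw [hD]; omega
  have hDpos : 0 < D := by rw [hD]; omega
  have hDsq : Squarefree D := by rw [hD]; exact Int.squarefree_natCast.2 (sqf_of hP hS)
  have h42 : D.natAbs.Coprime 42 := by rw [hDn]; exact cop_of hP hS
  obtain ⟨hmin, hfin, hΩ, hT, hTv, htf, htv, s, L, e, hs, hL, hE, he, hL1⟩ :=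
    ana_Q H D hDsq hD4 hDpos h42
  obtain ⟨Δ, ⟨k, hk⟩, hΔ⟩ := qc_sum hs hP hS hc
  rw [← hDn] at hk
  rw [hDn, pf_of hP hS, tam_sum hP hS] at hTv
  have ht0 : Nat.card (tors ℚ (WM D)) ≠ 0 := by
    intro h0
    rw [h0, show padicValNat 2 0 = 0 by simp] at htv
    omega
  set n := S.card + 2 * P.card with hn
  obtain ⟨o, ho⟩ : ∃ o : ℤ, o = Δ + 2 * k := ⟨_, rfl⟩
  rw [← ho] at hk
  have ho2 : (o : ZMod 2) = (RR P S).det := by
    rw [← hΔ, ho]
    exact cast_add_two Δ k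
  have hodd : (RR P S).det ≠ 0 ↔ ¬ (2 : ℤ) ∣ o := by
    rw [← ho2, Ne, ZMod.intCast_zmod_eq_zero_iff_dvd]
    exact Iff.rfl
  have heQ : e ≠ 0 := by rcases he with rfl | rfl <;> norm_num
  have htQ : (Nat.card (tors ℚ (WM D)) : ℚ) ≠ 0 := by exact_mod_cast ht0
  have hTQ : (Tam ℚ (WM D) : ℚ) ≠ 0 := by exact_mod_cast hT.ne'
  have hkQ : (SS s D.natAbs D.natAbs : ℚ) = 2 ^ n * (o : ℚ) := by
    rw [hk]
    push_cast
    ring
  have h22 : padicValRat 2 (2 : ℚ) = 1 := by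
    have := padicValRat.self (p := 2) (by norm_num)
    exact_mod_cast this
  have h6 : padicValRat 2 (6 : ℚ) = 1 := by
    rw [show (6 : ℚ) = 2 * (3 : ℕ) by norm_num, padicValRat.mul two_ne_zero (by norm_num),
      h22, padicValRat.of_nat, val_odd (by decide)]
    norm_num
  have hz0 : e * (2 ^ n * (o : ℚ) * (Nat.card (tors ℚ (WM D)) : ℚ) ^ 2 /
      (6 * Tam ℚ (WM D))) = 0 ↔ o = 0 := by
    constructor
    · intro h
      by_contra ho0
      have hoQ : (o : ℚ) ≠ 0 := by exact_mod_cast ho0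
      exact (mul_ne_zero heQ (div_ne_zero (mul_ne_zero (mul_ne_zero (pow_ne_zero _ two_ne_zero) hoQ)
        (pow_ne_zero _ htQ)) (mul_ne_zero (by norm_num) hTQ))) h
    · intro h
      rw [h]
      simp
  have hval : o ≠ 0 → padicValRat 2 (e * (2 ^ n * (o : ℚ) * (Nat.card (tors ℚ (WM D)) : ℚ) ^ 2 /
      (6 * Tam ℚ (WM D)))) = padicValInt 2 o := by
    intro ho0
    have hoQ : (o : ℚ) ≠ 0 := by exact_mod_cast ho0
    have hmain : padicValRat 2 (2 ^ n * (o : ℚ) * (Nat.card (tors ℚ (WM D)) : ℚ) ^ 2 /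
        (6 * Tam ℚ (WM D))) = padicValInt 2 o := by
      rw [padicValRat.div (mul_ne_zero (mul_ne_zero (pow_ne_zero _ two_ne_zero) hoQ)
        (pow_ne_zero _ htQ)) (mul_ne_zero (by norm_num) hTQ),
        padicValRat.mul (mul_ne_zero (pow_ne_zero _ two_ne_zero) hoQ) (pow_ne_zero _ htQ),
        padicValRat.mul (pow_ne_zero _ two_ne_zero) hoQ, padicValRat.pow, padicValRat.pow,
        padicValRat.mul (by norm_num) hTQ, h22, padicValRat.of_int, h6, padicValRat.of_nat,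
        padicValRat.of_nat, hTv, htv]
      push_cast
      ring
    rcases he with rfl | rfl
    · rw [one_mul]; exact hmain
    · rw [neg_one_mul, padicValRat.neg]; exact hmain
  refine ⟨hmin, hfin, hΩ, hT, Nat.pos_of_ne_zero ht0, L, e * (2 ^ n * (o : ℚ) *
    (Nat.card (tors ℚ (WM D)) : ℚ) ^ 2 / (6 * Tam ℚ (WM D))), hL, hE, ?_, ?_, ?_⟩
  · rw [hL1, hkQ]
    push_cast
    have c5 : (Tam ℚ (WM D) : ℂ) ≠ 0 := by exact_mod_cast hT.ne'
    field_simp
  · by_cases ho0 : o = 0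
    · exact Or.inl (hz0.2 ho0)
    · right
      rw [hval ho0]
      exact Int.natCast_nonneg _
  · rw [hodd]
    constructor
    · rintro ⟨h1, h2⟩ h3
      have ho0 : o ≠ 0 := fun h => h1 (hz0.2 h)
      rw [hval ho0] at h2
      have h4 : padicValInt 2 o = 0 := by exact_mod_cast h2
      rw [padicValInt.eq_zero_iff] at h4
      rcases h4 with h4 | h4 | h4
      · norm_num at h4
      · exact ho0 h4
      · exact h4 (by exact_mod_cast h3)
    · intro h3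
      have ho0 : o ≠ 0 := by
        rintro rfl
        exact h3 (dvd_zero _)
      refine ⟨fun h => ho0 (hz0.1 h), ?_⟩
      rw [hval ho0, padicValInt.eq_zero_of_not_dvd (by exact_mod_cast h3)]
      rfl

/-- the 2-part of the conjecture, given the result of the descent -/
theorem twoPart_Q (H : Parts) {W : WeierstrassCurve ℤ} (hΔ : W.Δ ≠ 0) (hz : rank ℚ W = 0)
    (hs0 : ∀ y : Sha (base W ℚ), 2 • y = 0 → y = 0) (hΩ : 0 < Omega ℚ W) (hT : 0 < Tam ℚ W)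
    (ht : 0 < Nat.card (tors ℚ W)) {L : ℂ → ℂ} {z : ℚ} (hL : Differentiable ℂ L)
    (hE : ∀ s : ℂ, 3 / 2 < s.re → HasProd (factor (K := ℚ) W s) (L s))
    (hL1 : L 1 * (Nat.card (tors ℚ W) : ℂ) ^ 2 = z * ((Omega ℚ W * Tam ℚ W : ℝ) : ℂ))
    (hz0 : z ≠ 0) (hzv : padicValRat 2 z = 0) : TwoPart ℚ W := by
  have hfact : Fact (Nat.Prime 2) := ⟨Nat.prime_two⟩
  obtain ⟨h, hh, -, -, hb, g, hg⟩ := H.ch ℚ W hΔ
  have hR1 : reg ℚ W h g = 1 := by
    have he : IsEmpty (Fin (rank ℚ W)) := by rw [hz]; exact Fin.isEmpty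
    exact Matrix.det_isEmpty
  have hdQ : ((√|(discr ℚ : ℝ)| : ℝ) : ℂ) = 1 := by
    rw [Rat.numberField_discr]
    norm_num
  have hc := sha2_card hs0
  have hL10 : L 1 ≠ 0 := by
    intro h0
    rw [h0, zero_mul] at hL1
    have h1 : (z : ℂ) ≠ 0 := Rat.cast_ne_zero.2 hz0
    have h2 : ((Omega ℚ W * Tam ℚ W : ℝ) : ℂ) ≠ 0 := by
      have : (Omega ℚ W * Tam ℚ W : ℝ) ≠ 0 := (mul_pos hΩ (by exact_mod_cast hT)).ne'
      exact_mod_cast this
    exact mul_ne_zero h1 h2 hL1.symm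
  refine ⟨z, hz0, ?_, ?_, ?_⟩
  · refine ⟨L, L 1, h, rank ℚ W, g, hL, hE, ?_, ?_, hh, hg, ?_, hΩ, hT, ht, ?_⟩
    · rw [hz]
      exact analyticOrderAt_eq_zero.2 (Or.inr hL10)
    · rw [hz]
      simp only [pow_zero, div_one]
      exact (hL.continuous.tendsto 1).mono_left nhdsWithin_le_nhds
    · rw [hR1]; exact one_pos
    · rw [hdQ, hR1, mul_one, hL1, one_mul, mul_div_assoc, div_self, mul_one]
      have : (Omega ℚ W * Tam ℚ W : ℝ) ≠ 0 := (mul_pos hΩ (by exact_mod_cast hT)).ne'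
      exact_mod_cast this
  · exact Nat.finite_of_card_ne_zero (by rw [hc]; exact one_ne_zero)
  · rw [hc, hzv, padicValNat_one_right]
    rfl

end Pool.Agent.Run7.h701.TW
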