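import Pool.Agent.Y687.K2.Main2

/-!
# The matrix of the split primes
-/

set_option autoImplicit false
set_option linter.style.haveILetI false

open Finset

namespace Pool.Agent.Run7.h701.TW

open scoped Classical

open Pool.Agent.W97.MT (ap E14)
open Pool.Agent.Y687

/-- `1` if `n` is not a square modulo `p`, else `0` -/
noncomputable def ee (p n : ℕ) : ZMod 2 := if IsSquare (n : ZMod p) then 0 else 1

/-- `1` if `8` does not divide the number of the points modulo `p` of the twist by `m`, else `0` -/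
noncomputable def nn (m p : ℕ) : ZMod 2 := if 8 ∣ NN m p then 0 else 1

theorem ee_mul {p a b : ℕ} (hp : p.Prime) (hp2 : p ≠ 2) (ha : ¬ p ∣ a) (hb : ¬ p ∣ b) :
    ee p (a * b) = ee p a + ee p b := by
  haveI : Fact p.Prime := ⟨hp⟩
  have ha' : (a : ZMod p) ≠ 0 := fun h => ha ((ZMod.natCast_eq_zero_iff _ _).1 h)
  have hb' : (b : ZMod p) ≠ 0 := fun h => hb ((ZMod.natCast_eq_zero_iff _ _).1 h)
  have h := sq_mul_iff ha' hb' hp2
  unfold ee
  rw [Nat.cast_mul]
  by_cases h1 : IsSquare (a : ZMod p) <;> by_cases h2 : IsSquare (b : ZMod p)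
  · rw [if_pos (h.2 (by tauto)), if_pos h1, if_pos h2, add_zero]
  · rw [if_neg (fun h3 => by have := h.1 h3; tauto), if_pos h1, if_neg h2, zero_add]
  · rw [if_neg (fun h3 => by have := h.1 h3; tauto), if_neg h1, if_pos h2, add_zero]
  · rw [if_pos (h.2 (by tauto)), if_neg h1, if_neg h2]
    decide

theorem ee_one (p : ℕ) : ee p 1 = 0 := if_pos ⟨1, by norm_num⟩

theorem ee_prod {p : ℕ} (hp : p.Prime) (hp2 : p ≠ 2) (I : Finset ℕ) (hI : ∀ q ∈ I, ¬ p ∣ q) :
    ee p (∏ q ∈ I, q) = ∑ q ∈ I, ee p q := by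
  induction I using Finset.induction_on with
  | empty => rw [Finset.prod_empty, Finset.sum_empty, ee_one]
  | insert q T hq ih =>
    have hT : ∀ r ∈ T, ¬ p ∣ r := fun r hr => hI r (Finset.mem_insert_of_mem hr)
    rw [Finset.prod_insert hq, Finset.sum_insert hq, ee_mul hp hp2
      (hI q (Finset.mem_insert_self q T)) ?_, ih hT]
    intro h
    rw [hp.prime.dvd_finsetProd_iff] at h
    obtain ⟨r, hr, hpr⟩ := h
    exact hT r hr hpr

/-- `jacobiSym p m = 1` if and only if `m` is a square modulo `p` -/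
theorem jac_ee {p m : ℕ} (hp : p.Prime) (hp2 : p ≠ 2) (hm4 : m % 4 = 1) (hpm : ¬ p ∣ m) :
    (jacobiSym p m = 1 ∧ ee p m = 0) ∨ (jacobiSym p m = -1 ∧ ee p m = 1) := by
  haveI : Fact p.Prime := ⟨hp⟩
  have hM0 : (m : ZMod p) ≠ 0 := fun h => hpm ((ZMod.natCast_eq_zero_iff _ _).1 h)
  have h5 : quadraticChar (ZMod p) (m : ZMod p) = jacobiSym p m := by
    have h6 : quadraticChar (ZMod p) (m : ZMod p) = legendreSym p (m : ℤ) := by
      rw [legendreSym]
      norm_num
    rw [h6, jacobiSym.legendreSym.to_jacobiSym]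
    exact jacobiSym.quadratic_reciprocity_one_mod_four hm4 (hp.odd_of_ne_two hp2)
  unfold ee
  rcases quadraticChar_dichotomy hM0 with h1 | h1
  · left
    exact ⟨h5.symm.trans h1, if_pos ((quadraticChar_one_iff_isSquare hM0).1 h1)⟩
  · right
    refine ⟨h5.symm.trans h1, if_neg fun h2 => ?_⟩
    rw [(quadraticChar_one_iff_isSquare hM0).2 h2] at h1
    norm_num at h1

/-- reciprocity -/
theorem ee_symm {p q : ℕ} (hp : p.Prime) (hq : q.Prime) (hne : p ≠ q) (hp4 : p % 4 = 1)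
    (hq4 : q % 4 = 1) : ee p q = ee q p := by
  have h1 := jac_ee hp (by rintro rfl; omega) hq4
    (fun h => hne ((Nat.prime_dvd_prime_iff_eq hp hq).1 h))
  have h2 := jac_ee hq (by rintro rfl; omega) hp4
    (fun h => hne ((Nat.prime_dvd_prime_iff_eq hq hp).1 h).symm)
  have h3 : jacobiSym p q = jacobiSym q p := by
    refine jacobiSym.quadratic_reciprocity_one_mod_four hp4 ?_
    exact hq.odd_of_ne_two (by rintro rfl; omega)
  rcases h1 with ⟨a, b⟩ | ⟨a, b⟩ <;> rcases h2 with ⟨c, d⟩ | ⟨c, d⟩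
  · rw [b, d]
  · rw [h3, c] at a; norm_num at a
  · rw [h3, c] at a; norm_num at a
  · rw [b, d]

/-- the coefficient `a_p` and the number of points -/
theorem nn_eq {p m : ℕ} (hp : Split p) (hm4 : m % 4 = 1) (hpm : ¬ p ∣ m) {x : ℤ}
    (hx : ap E14 p - 2 * jacobiSym p m = 4 * x) : nn m p = (x : ZMod 2) := by
  haveI : Fact p.Prime := ⟨hp.1⟩
  have h8 := hp.2.1
  have h1 := cnt_twist 5805 (-285714) m p (by omega) hm4 hpm
  rw [cnt_E14 p hp.1 (by omega) (by omega)] at h1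
  have hJ := jac_ee hp.1 (by omega) hm4 hpm
  have h2 : 8 ∣ NN m p ↔ (2 : ℤ) ∣ x := by
    have h3 : 8 ∣ NN m p ↔ (8 : ℤ) ∣ ((NN m p : ℕ) : ℤ) := by
      constructor
      · intro h; exact_mod_cast h
      · intro h; exact_mod_cast h
    have h4 : ((NN m p : ℕ) : ℤ) = p + 1 - jacobiSym p m * ap E14 p := by
      unfold NN
      push_cast
      linear_combination -h1
    rw [h3, h4]
    rcases hJ with ⟨hj, -⟩ | ⟨hj, -⟩
    · rw [hj] at hx ⊢
      omega
    · rw [hj] at hx ⊢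
      omega
  unfold nn
  by_cases h5 : (2 : ℤ) ∣ x
  · rw [if_pos (h2.2 h5)]
    exact ((ZMod.intCast_zmod_eq_zero_iff_dvd x 2).2 (by exact_mod_cast h5)).symm
  · rw [if_neg (fun h => h5 (h2.1 h))]
    obtain ⟨k, hk⟩ : ∃ k, x = 2 * k + 1 := ⟨x / 2, by omega⟩
    rw [hk]
    push_cast
    rw [show (2 : ZMod 2) = 0 by decide, zero_mul, zero_add]

theorem exists_x {p m : ℕ} (hp : Split p) (hm4 : m % 4 = 1) (hpm : ¬ p ∣ m) :
    ∃ x : ℤ, ap E14 p - 2 * jacobiSym p m = 4 * x := by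
  obtain ⟨pp, p8, p7⟩ := hp
  obtain ⟨-, k, hk⟩ := SS_facts p pp p8 p7
  rcases jac_ee pp (by omega) hm4 hpm with ⟨hj, -⟩ | ⟨hj, -⟩
  · exact ⟨k, by rw [hj]; linear_combination hk⟩
  · exact ⟨k + 1, by rw [hj]; linear_combination hk⟩

/-- twisting by `c` -/
theorem nn_mul {p m c : ℕ} (hp : Split p) (hm4 : m % 4 = 1) (hpm : ¬ p ∣ m) (hc4 : c % 4 = 1)
    (hpc : ¬ p ∣ c) : nn (c * m) p = nn m p + ee p c := by
  have hcm4 : (c * m) % 4 = 1 := by rw [Nat.mul_mod, hc4, hm4]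
  have hcm : ¬ p ∣ c * m := fun h => (hp.1.dvd_mul.1 h).elim hpc hpm
  obtain ⟨x, hx⟩ := exists_x hp hm4 hpm
  obtain ⟨y, hy⟩ := exists_x hp hcm4 hcm
  rw [nn_eq hp hm4 hpm hx, nn_eq hp hcm4 hcm hy]
  have hc0 : c ≠ 0 := by omega
  have hm0 : m ≠ 0 := by omega
  have hmul : jacobiSym p (c * m) = jacobiSym p c * jacobiSym p m :=
    jacobiSym.mul_right' _ hc0 hm0
  rw [hmul] at hy
  have h2 : (2 : ZMod 2) = 0 := by decide
  rcases jac_ee hp.1 (by rintro rfl; have := hp.2.1; omega) hc4 hpc with ⟨hj, he⟩ | ⟨hj, he⟩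
  · rw [hj, one_mul] at hy
    rw [he, add_zero]
    have : y = x := by linarith
    rw [this]
  · rw [hj] at hy
    rw [he]
    have hJ : jacobiSym p m = 1 ∨ jacobiSym p m = -1 := by
      rcases jac_ee hp.1 (by rintro rfl; have := hp.2.1; omega) hm4 hpm with ⟨h, -⟩ | ⟨h, -⟩
      · exact Or.inl h
      · exact Or.inr h
    rcases hJ with h | h
    · rw [h] at hx hy
      have : y = x + 1 := by linarith
      rw [this]
      push_cast
      rfl
    · rw [h] at hx hy
      have : y = x - 1 := by linarith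
      rw [this]
      push_cast
      rw [sub_eq_add_neg]
      congr 1

/-- the matrix over the field with two elements attached to the split primes `P` and the inert
primes `S` -/
noncomputable def RR (P S : Finset ℕ) : Matrix P P (ZMod 2) := Matrix.of fun p p' =>
  if p = p' then nn ((∏ q ∈ P.erase (p : ℕ), q) * ∏ q ∈ S, q) p else ee p p'

theorem RR_apply (P S : Finset ℕ) (p p' : P) : RR P S p p' =
    if (p : ℕ) = p' then nn ((∏ q ∈ P.erase (p : ℕ), q) * ∏ q ∈ S, q) p else ee p p' := by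
  unfold RR
  rw [Matrix.of_apply]
  by_cases h : p = p'
  · rw [if_pos h, if_pos (congrArg _ h)]
  · rw [if_neg h, if_neg (fun h' => h (Subtype.ext h'))]

theorem mod4_prod {P : Finset ℕ} (hP : ∀ p ∈ P, Split p) : (∏ q ∈ P, q) % 4 = 1 := by
  refine Finset.prod_induction _ (fun n => n % 4 = 1) ?_ (by norm_num) ?_
  · intro a b ha hb
    rw [Nat.mul_mod, ha, hb]
  · intro p hp
    have := (hP p hp).2.1
    omega

theorem not_dvd_split {p : ℕ} (hp : p.Prime) {I : Finset ℕ} (hI : ∀ q ∈ I, Split q) (hpI : p ∉ I) :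
    ¬ p ∣ ∏ q ∈ I, q := fun h => hpI (dvd_prod_primes (fun q hq => (hI q hq).1) hp h)

/-- the product of the matrix with the indicator function of `I` -/
theorem RR_row {P S : Finset ℕ} (hP : ∀ p ∈ P, Split p) (hS : ∀ q ∈ S, Inert q) {I : Finset ℕ}
    (hI : I ⊆ P) (p : P) :
    (RR P S).mulVec (fun p' => if (p' : ℕ) ∈ I then 1 else 0) p =
      if (p : ℕ) ∈ I then nn ((∏ q ∈ P \ I, q) * ∏ q ∈ S, q) p else ee p (∏ q ∈ I, q) := by
  obtain ⟨p, hpP⟩ := p
  have hp := hP p hpP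
  have hp2 : p ≠ 2 := by rintro rfl; have := hp.2.1; omega
  have hnd : ∀ q ∈ P, q ≠ p → ¬ p ∣ q := fun q hq hne h =>
    hne ((Nat.prime_dvd_prime_iff_eq hp.1 (hP q hq).1).1 h).symm
  -- the sum
  have hsum : (RR P S).mulVec (fun p' => if (p' : ℕ) ∈ I then 1 else 0) ⟨p, hpP⟩ =
      ∑ q ∈ I, (if p = q then nn ((∏ q ∈ P.erase p, q) * ∏ q ∈ S, q) p else ee p q) := by
    have h1 : (RR P S).mulVec (fun p' => if (p' : ℕ) ∈ I then 1 else 0) ⟨p, hpP⟩ =
        ∑ x : P, (fun q : ℕ => if q ∈ I then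
          (if p = q then nn ((∏ q ∈ P.erase p, q) * ∏ q ∈ S, q) p else ee p q) else 0) x := by
      show ∑ x : P, RR P S ⟨p, hpP⟩ x * (if (x : ℕ) ∈ I then 1 else 0) = _
      refine Finset.sum_congr rfl fun x _ => ?_
      rw [RR_apply]
      by_cases h : (x : ℕ) ∈ I
      · rw [if_pos h, mul_one]
        show _ = (if (x : ℕ) ∈ I then _ else _)
        rw [if_pos h]
      · rw [if_neg h, mul_zero]
        show _ = (if (x : ℕ) ∈ I then _ else _)
        rw [if_neg h]
    rw [h1, Finset.sum_coe_sort P (fun q : ℕ => if q ∈ I then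
          (if p = q then nn ((∏ q ∈ P.erase p, q) * ∏ q ∈ S, q) p else ee p q) else 0),
      ← Finset.sum_filter, Finset.filter_mem_eq_inter, Finset.inter_eq_right.2 hI]
  rw [hsum]
  by_cases hpI : p ∈ I
  · rw [if_pos hpI, ← Finset.add_sum_erase I _ hpI, if_pos rfl]
    have h3 : ∑ q ∈ I.erase p, (if p = q then nn ((∏ q ∈ P.erase p, q) * ∏ q ∈ S, q) p else ee p q) =
        ee p (∏ q ∈ I.erase p, q) := by
      rw [ee_prod hp.1 hp2 _ fun q hq => hnd q (hI (Finset.mem_of_mem_erase hq))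
        (Finset.ne_of_mem_erase hq)]
      refine Finset.sum_congr rfl fun q hq => ?_
      rw [if_neg (Finset.ne_of_mem_erase hq).symm]
    rw [h3]
    have h4 : (∏ q ∈ P.erase p, q) * ∏ q ∈ S, q =
        (∏ q ∈ I.erase p, q) * ((∏ q ∈ P \ I, q) * ∏ q ∈ S, q) := by
      rw [← mul_assoc]
      congr 1
      have h5 : P.erase p = I.erase p ∪ (P \ I) := by
        ext q
        simp only [Finset.mem_erase, Finset.mem_union, Finset.mem_sdiff]
        constructor
        · rintro ⟨h6, h7⟩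
          by_cases h8 : q ∈ I
          · exact Or.inl ⟨h6, h8⟩
          · exact Or.inr ⟨h7, h8⟩
        · rintro (⟨h6, h7⟩ | ⟨h6, h7⟩)
          · exact ⟨h6, hI h7⟩
          · refine ⟨?_, h6⟩
            rintro rfl
            exact h7 hpI
      rw [h5, Finset.prod_union]
      refine Finset.disjoint_left.2 fun q hq hq2 => ?_
      exact (Finset.mem_sdiff.1 hq2).2 (Finset.mem_of_mem_erase hq)
    have hPI : ∀ q ∈ P \ I, Split q := fun q hq => hP q (Finset.mem_sdiff.1 hq).1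
    have hIe : ∀ q ∈ I.erase p, Split q := fun q hq => hP q (hI (Finset.mem_of_mem_erase hq))
    rw [h4, nn_mul hp ?_ ?_ (mod4_prod hIe) (not_dvd_split hp.1 hIe (Finset.notMem_erase p I)),
      add_assoc, CharTwo.add_self_eq_zero, add_zero]
    · rw [Nat.mul_mod, mod4_prod hPI, prod_mod_four hS]
    · intro h
      rcases hp.1.dvd_mul.1 h with h | h
      · exact not_dvd_split hp.1 hPI (fun h' => (Finset.mem_sdiff.1 h').2 hpI) h
      · exact split_not_dvd hp hS h
  · rw [if_neg hpI, ee_prod hp.1 hp2 _ fun q hq => hnd q (hI hq) (by rintro rfl; exact hpI hq)]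
    refine Finset.sum_congr rfl fun q hq => ?_
    rw [if_neg]
    rintro rfl
    exact hpI hq

/-- the condition of the descent -/
theorem cond_of_det {P S : Finset ℕ} (hP : ∀ p ∈ P, Split p) (hS : ∀ q ∈ S, Inert q)
    (hdet : (RR P S).det ≠ 0) {I : Finset ℕ} (hI : I ⊆ P) (hne : I.Nonempty) :
    ∃ p ∈ P, (p ∉ I ∧ ¬ IsSquare (((∏ q ∈ I, q : ℕ)) : ZMod p)) ∨
      (p ∈ I ∧ ¬ 8 ∣ NN ((∏ q ∈ P \ I, q) * ∏ q ∈ S, q) p) := by
  by_contra hcon
  push Not at hcon
  have h1 : (RR P S).mulVec (fun p' => if (p' : ℕ) ∈ I then 1 else 0) = 0 := by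
    funext p
    rw [RR_row hP hS hI p]
    obtain ⟨h2, h3⟩ := hcon p p.2
    by_cases hpI : (p : ℕ) ∈ I
    · rw [if_pos hpI]
      exact if_pos (h3 hpI)
    · rw [if_neg hpI]
      exact if_pos (h2 hpI)
  have h2 := Matrix.eq_zero_of_mulVec_eq_zero hdet h1
  obtain ⟨p, hp⟩ := hne
  have h3 := congrFun h2 ⟨p, hI hp⟩
  simp only [Pi.zero_apply] at h3
  rw [if_pos hp] at h3
  exact one_ne_zero h3

end Pool.Agent.Run7.h701.TW
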