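import Pool.Agent.Run7.h701.TW.AnaK
import Pool.Agent.Run7.h701.TW.Cnd

/-!
# The number of points of the twists modulo a prime, on the minimal equation
-/

set_option autoImplicit false
set_option linter.style.haveILetI false

open Finset WeierstrassCurve

namespace Pool.Agent.Run7.h701.TW

open scoped Classical

open Pool.Agent.Y700 (WM)
open Pool.Agent.Y687
open Pool.Agent.Y682.XF (base pts)

theorem pts_eq {p : ℕ} (hp : p.Prime) (hp2 : p ≠ 2) (hp3 : p ≠ 3) {m : ℤ} (hm : m % 4 = 1) :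
    pts (WM m) (ZMod p) = cnt (5805 * m ^ 2) (-285714 * m ^ 3) p := by
  haveI : Fact p.Prime := ⟨hp⟩
  rw [cnt_model m p hp3]
  have n2 : (2 : ZMod p) ≠ 0 := two_ne hp hp2
  have n4 : (4 : ZMod p) ≠ 0 := by
    rw [show (4 : ZMod p) = 2 * 2 by norm_num]
    exact mul_ne_zero n2 n2
  have n64 : (64 : ZMod p) ≠ 0 := by
    rw [show (64 : ZMod p) = 4 * 4 * 4 by norm_num]
    exact mul_ne_zero (mul_ne_zero n4 n4) n4
  -- the coefficients
  have e2 : (4 : ZMod p) * (((m - 1) / 4 : ℤ) : ZMod p) = (m : ZMod p) - 1 := by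
    have : (4 : ℤ) * ((m - 1) / 4) = m - 1 := by omega
    exact_mod_cast congrArg (Int.cast : ℤ → ZMod p) this
  have hm2 : (m ^ 2) % 4 = 1 := by
    rw [pow_two, Int.mul_emod, hm]
    norm_num
  have hm3 : (m ^ 3) % 4 = 1 := by
    rw [pow_succ, Int.mul_emod, hm2, hm]
    norm_num
  have e4 : (2 : ZMod p) * (((9 * m ^ 2 - 1) / 2 : ℤ) : ZMod p) = 9 * (m : ZMod p) ^ 2 - 1 := by
    have : (2 : ℤ) * ((9 * m ^ 2 - 1) / 2) = 9 * m ^ 2 - 1 := by omega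
    exact_mod_cast congrArg (Int.cast : ℤ → ZMod p) this
  have e6 : (4 : ZMod p) * (((-((23 * m ^ 3 + 1) / 4)) : ℤ) : ZMod p) =
      -(23 * (m : ZMod p) ^ 3 + 1) := by
    have : (4 : ℤ) * (-((23 * m ^ 3 + 1) / 4)) = -(23 * m ^ 3 + 1) := by omega
    exact_mod_cast congrArg (Int.cast : ℤ → ZMod p) this
  obtain ⟨a2, ha2⟩ : ∃ a2 : ZMod p, a2 = (((m - 1) / 4 : ℤ) : ZMod p) := ⟨_, rfl⟩
  obtain ⟨a4, ha4⟩ : ∃ a4 : ZMod p, a4 = (((9 * m ^ 2 - 1) / 2 : ℤ) : ZMod p) := ⟨_, rfl⟩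
  obtain ⟨a6, ha6⟩ : ∃ a6 : ZMod p, a6 = (((-((23 * m ^ 3 + 1) / 4)) : ℤ) : ZMod p) := ⟨_, rfl⟩
  rw [← ha2] at e2
  rw [← ha4] at e4
  rw [← ha6] at e6
  have hEq : ∀ x y : ZMod p, (base (WM m) (ZMod p)).toAffine.Equation x y ↔
      y ^ 2 + x * y + y = x ^ 3 + a2 * x ^ 2 + a4 * x + a6 := by
    intro x y
    rw [Affine.equation_iff]
    have c1 : (base (WM m) (ZMod p)).toAffine.a₁ = 1 := by
      show ((1 : ℤ) : ZMod p) = 1
      exact Int.cast_one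
    have c3 : (base (WM m) (ZMod p)).toAffine.a₃ = 1 := by
      show ((1 : ℤ) : ZMod p) = 1
      exact Int.cast_one
    have c2 : (base (WM m) (ZMod p)).toAffine.a₂ = a2 := ha2.symm
    have c4 : (base (WM m) (ZMod p)).toAffine.a₄ = a4 := ha4.symm
    have c6 : (base (WM m) (ZMod p)).toAffine.a₆ = a6 := ha6.symm
    rw [c1, c2, c3, c4, c6, one_mul, one_mul]
  unfold pts
  refine Nat.card_congr
    { toFun := fun P => ⟨(4 * (P.1.1 - m), 4 * (2 * P.1.2 + P.1.1 + 1)), ?_⟩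
      invFun := fun P => ⟨(P.1.1 / 4 + m, (P.1.2 / 4 - (P.1.1 / 4 + m) - 1) / 2), ?_⟩
      left_inv := ?_
      right_inv := ?_ }
  · have h := (hEq _ _).1 P.2
    generalize P.1.1 = x at h
    generalize P.1.2 = y at h
    show (4 * (2 * y + x + 1)) ^ 2 = (4 * (x - (m : ZMod p))) ^ 3 +
      (13 * (m : ZMod p)) * (4 * (x - (m : ZMod p))) ^ 2 +
      (128 * (m : ZMod p) ^ 2) * (4 * (x - (m : ZMod p)))
    linear_combination 64 * h + 16 * x ^ 2 * e2 + 32 * x * e4 + 16 * e6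
  · rw [hEq]
    have h := P.2
    obtain ⟨u, hu⟩ : ∃ u, u = P.1.1 / 4 := ⟨_, rfl⟩
    obtain ⟨v, hv⟩ : ∃ v, v = (P.1.2 / 4 - (u + m) - 1) / 2 := ⟨_, rfl⟩
    have k1 : P.1.1 = 4 * u := by rw [hu]; field_simp
    have k2 : P.1.2 = 4 * (2 * v + (u + m) + 1) := by
      rw [hv]
      field_simp
      ring
    show ((P.1.2 / 4 - (P.1.1 / 4 + (m : ZMod p)) - 1) / 2) ^ 2 + (P.1.1 / 4 + (m : ZMod p)) *
      ((P.1.2 / 4 - (P.1.1 / 4 + (m : ZMod p)) - 1) / 2) +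
      ((P.1.2 / 4 - (P.1.1 / 4 + (m : ZMod p)) - 1) / 2) = (P.1.1 / 4 + (m : ZMod p)) ^ 3 +
      a2 * (P.1.1 / 4 + (m : ZMod p)) ^ 2 + a4 * (P.1.1 / 4 + (m : ZMod p)) + a6
    rw [← hu, ← hv]
    rw [k1, k2] at h
    apply mul_left_cancel₀ n64
    linear_combination h - 16 * (u + m) ^ 2 * e2 - 32 * (u + m) * e4 - 16 * e6
  · intro P
    ext
    · show 4 * (P.1.1 - (m : ZMod p)) / 4 + (m : ZMod p) = P.1.1
      field_simp
      ring
    · show (4 * (2 * P.1.2 + P.1.1 + 1) / 4 - (4 * (P.1.1 - (m : ZMod p)) / 4 + (m : ZMod p)) - 1) / 2 =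
        P.1.2
      field_simp
      ring
  · intro P
    ext
    · show 4 * (P.1.1 / 4 + (m : ZMod p) - m) = P.1.1
      field_simp
      ring
    · show 4 * (2 * ((P.1.2 / 4 - (P.1.1 / 4 + (m : ZMod p)) - 1) / 2) + (P.1.1 / 4 + m) + 1) = P.1.2
      field_simp
      ring

/-- the number of points, on the minimal equation -/
theorem NN_pts {p : ℕ} (hp : p.Prime) (hp2 : p ≠ 2) (hp3 : p ≠ 3) {m : ℕ} (hm : m % 4 = 1) :
    NN m p = pts (WM (m : ℤ)) (ZMod p) + 1 := by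
  unfold NN
  rw [pts_eq hp hp2 hp3 (m := (m : ℤ)) (by omega)]

end Pool.Agent.Run7.h701.TW
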