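import Pool.Agent.Y682.XF.Stm
import Pool.Agent.Y275.XD.Basel
import Pool.Agent.Y687.K2.Main2

/-!
# The exact power of two in the central sums of the twists by at most two split primes

The sums of the modular symbols are those of `Pool/Agent/Y687` (`sum_split`, `sum_split2`); for the
passage from the symbols to the integrals see `Pool/Agent/Y514/XF/Qval.lean`.
-/

set_option autoImplicit false

open Finset

namespace Pool.Agent.Run7.h701.TW

open Pool.Agent.W97.MT (E14 ap II II_conj II_add_one)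
open Pool.Agent.Y687 (Symb Symb2 SS Split Inert SP Qc NN Cond2 isII II_facts prod_mod_four split_sp
  split_notMem split_facts sum_split2 L_inert)
open Pool.Agent.Y682.XT (II_re triv_val val_neg_unit)
open Pool.Agent.Y275.XD (sum_units)

/-- the sum of the integrals is `Op / 3` times the sum of the symbols -/
theorem sum_eq {s : ℚ → ℤ} {Op : ℝ} (hv : ∀ r : ℚ, (3 : ℝ) * (II r).re = s r * Op)
    (f : ℕ) [NeZero f] (h1 : 1 < f) (hf4 : f % 4 = 1) (ρ : DirichletCharacter ℂ f)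
    (hρ : ∀ u : (ZMod f)ˣ, ρ (u : ZMod f) = (jacobiSym ((u : ZMod f).val : ℤ) f : ℂ)) :
    ∑ u : (ZMod f)ˣ, ρ (u : ZMod f) * II (((u : ZMod f).val : ℚ) / f) =
      (Op / 3 : ℂ) * ((SS s f f : ℤ) : ℂ) := by
  have hconj : ∑ u : (ZMod f)ˣ, ρ (u : ZMod f) * II (((u : ZMod f).val : ℚ) / f) =
      ∑ u : (ZMod f)ˣ, ρ (u : ZMod f) * (starRingEnd ℂ) (II (((u : ZMod f).val : ℚ) / f)) := by
    refine Fintype.sum_equiv (Equiv.neg (ZMod f)ˣ) _ _ fun u => ?_
    rw [Equiv.neg_apply]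
    have h4 : II (((u : ZMod f).val : ℚ) / f) =
        (starRingEnd ℂ) (II ((((-u : (ZMod f)ˣ) : ZMod f).val : ℚ) / f)) := by
      rw [val_neg_unit h1, ← II_conj, ← II_add_one (-(((f - (u : ZMod f).val : ℕ) : ℚ) / f))]
      congr 1
      have hf0 : (f : ℚ) ≠ 0 := by exact_mod_cast NeZero.ne f
      rw [Nat.cast_sub (ZMod.val_lt (u : ZMod f)).le]
      field_simp
      ring
    have h5 : ρ ((-u : (ZMod f)ˣ) : ZMod f) = ρ (u : ZMod f) := by
      rw [hρ, hρ, val_neg_unit h1]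
      congr 1
      have e1 : jacobiSym ((f - (u : ZMod f).val : ℕ) : ℤ) f =
          jacobiSym (-1 * ((u : ZMod f).val : ℤ)) f := by
        refine jacobiSym.mod_left' ?_
        rw [Nat.cast_sub (ZMod.val_lt (u : ZMod f)).le]
        rw [show (f : ℤ) - ((u : ZMod f).val : ℤ) = -1 * ((u : ZMod f).val : ℤ) + f by ring,
          Int.add_emod_right]
      have e2 : jacobiSym (-1) f = 1 := by
        rw [jacobiSym.at_neg_one (Nat.odd_iff.2 (by omega)), ZMod.χ₄_nat_one_mod_four hf4]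
      rw [e1, jacobiSym.mul_left, e2, one_mul]
    rw [h4, h5]
  have h6 : 2 * ∑ u : (ZMod f)ˣ, ρ (u : ZMod f) * II (((u : ZMod f).val : ℚ) / f) =
      2 * ((Op / 3 : ℂ) * ((SS s f f : ℤ) : ℂ)) := by
    rw [two_mul]
    nth_rewrite 2 [hconj]
    rw [← Finset.sum_add_distrib]
    have h7 : ∀ u : (ZMod f)ˣ, ρ (u : ZMod f) * II (((u : ZMod f).val : ℚ) / f) +
        ρ (u : ZMod f) * (starRingEnd ℂ) (II (((u : ZMod f).val : ℚ) / f)) =
        (fun a : ℕ => (2 * (Op / 3 : ℂ)) * ((jacobiSym (a : ℤ) f : ℂ) *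
          ((s ((a : ℚ) / f) : ℤ) : ℂ))) (u : ZMod f).val := by
      intro u
      rw [← mul_add, Complex.add_conj, hρ]
      push_cast
      rw [II_re hv]
      ring
    rw [Finset.sum_congr rfl fun u _ => h7 u, sum_units (fun a : ℕ => (2 * (Op / 3 : ℂ)) *
      ((jacobiSym (a : ℤ) f : ℂ) * ((s ((a : ℚ) / f) : ℤ) : ℂ)))]
    unfold SS
    push_cast
    rw [Finset.mul_sum, Finset.mul_sum]
    refine Finset.sum_congr rfl fun a _ => ?_
    ring
  exact mul_left_cancel₀ two_ne_zero h6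

/-- the sum for the trivial twist -/
theorem SS_one (s : ℚ → ℤ) : SS s 1 1 = s 0 := by
  unfold SS
  have : Pool.Agent.Y687.rr 1 = {0} := by decide
  rw [this, Finset.sum_singleton]
  simp

/-- the sum of the integrals, any `f = 1` modulo four -/
theorem sum_eq' {s : ℚ → ℤ} {Op : ℝ} (hv : ∀ r : ℚ, (3 : ℝ) * (II r).re = s r * Op)
    (f : ℕ) [NeZero f] (hf4 : f % 4 = 1) (ρ : DirichletCharacter ℂ f)
    (hρ : ∀ u : (ZMod f)ˣ, ρ (u : ZMod f) = (jacobiSym ((u : ZMod f).val : ℤ) f : ℂ)) :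
    ∑ u : (ZMod f)ˣ, ρ (u : ZMod f) * II (((u : ZMod f).val : ℚ) / f) =
      (Op / 3 : ℂ) * ((SS s f f : ℤ) : ℂ) := by
  rcases Nat.lt_or_ge 1 f with h1 | h1
  · exact sum_eq hv f h1 hf4 ρ hρ
  · have hf1 : f = 1 := by omega
    rw [(triv_val hv hf1 ρ).2]
    subst hf1
    rw [SS_one]
    ring

end Pool.Agent.Run7.h701.TW
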